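import Pool.Agent.Lib.MP_8382de_an.ALG.BaseE

/-!
# ALG.AddN: adding a Gamma factor to the numerator

`add_num`: let `T (m ↦ ψ m / Γ(c m + β))`, `c, β, a > 0` and `a (β-1) ≤ 2 c`. Then
`T (k ↦ ψ (2k) * (Γ(a k + 1)/Γ((a + 2c) k + β)))`.
Strict case `a (β-1) < 2c`: `step_even` with `(a, α) = (a/2, 1)`, `(b, β) = (c, β)`:
`h1 : 1 < 1 + β`, `hc1 : (a/2)(β-1) < c`, `hc2 : 0 < (a/2) β`; the factors `Γ(c (2k) + β)` cancel
(nonzero). Equality case: then `β > 1`; use `a_n = a (1 - 1/(n+2)) < a`, strict case, and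
`T_lim_ev` (continuity of `Γ`).

`one_num` (`c₀ ≥ 2`, `0 < β ≤ c₀`, `a (β-1) ≤ 2 c₀`): `T (Γ(a k+1)/Γ((a+2c₀) k + β))`: `add_num`
with `ψ = 1`, `c = c₀` from `T_ML`.

`two_num` (`a, b > 0`, `c₀ ≥ 2`, `0 < β ≤ c₀`, `a (β-1) ≤ 4 c₀`, `b (β-1) ≤ a + 4 c₀`):
`T (Γ(a k+1) Γ(b k+1)/Γ((a+b+4c₀) k + β))`: `one_num` with `a/2` gives
`T (m ↦ Γ((a/2) m+1)/Γ((a/2+2c₀) m + β))` (`(a/2)(β-1) ≤ 2c₀`), then `add_num` with
`ψ m = Γ((a/2) m+1)`, `c = a/2 + 2c₀` and the numerator slope `b` (`b (β-1) ≤ 2c = a + 4c₀`).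

`two_seed` (`0 < a ≤ 4`, `0 < b ≤ a + 4`): `T (Γ(a k+1) Γ(b k+1)/Γ((a+b+4) k + 2))`: `T_seed` with
`a/2 ≤ 2`, then `add_num` with `ψ m = Γ((a/2) m + 1)`, `c = a/2 + 2`, `β = 2`, slope `b`
(`b ≤ 2c = a + 4`).
-/

set_option autoImplicit false

namespace Pool.Agent.Lib.MP_8382de_an.ALG

open Filter Topology

private theorem addN_cont {s : ℝ} (hs : 0 < s) : ContinuousAt Real.Gamma s := by
  refine (Real.differentiableAt_Gamma (fun m hm => ?_)).continuousAt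
  have : (0 : ℝ) ≤ (m : ℝ) := Nat.cast_nonneg m
  linarith

private theorem addN_strict {ψ : ℕ → ℝ} {a c β : ℝ} (ha : 0 < a) (hc : 0 < c) (hβ : 0 < β)
    (hcond : a * (β - 1) < 2 * c) (h : T (fun m => ψ m / Real.Gamma (c * (m : ℝ) + β))) :
    T (fun k => ψ (2 * k) * (Real.Gamma (a * (k : ℝ) + 1) /
      Real.Gamma ((a + 2 * c) * (k : ℝ) + β))) := by
  have h1 := step_even (a := a / 2) (b := c) (α := 1) (β := β) (by linarith) hc one_pos hβ
    (by linarith) (by linarith) (by nlinarith) h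
  refine T_congr h1 (fun k => ?_)
  have hk : (0 : ℝ) ≤ (k : ℝ) := Nat.cast_nonneg k
  have e0 : ((2 * k : ℕ) : ℝ) = 2 * (k : ℝ) := by push_cast; ring
  have e1 : a / 2 * (2 * (k : ℝ)) + 1 = a * (k : ℝ) + 1 := by ring
  have e2 : (a / 2 + c) * (2 * (k : ℝ)) + (1 + β - 1) = (a + 2 * c) * (k : ℝ) + β := by ring
  have hpos : Real.Gamma (c * (2 * (k : ℝ)) + β) ≠ 0 :=
    (Real.Gamma_pos_of_pos (by positivity)).ne'
  have hpos2 : Real.Gamma ((a + 2 * c) * (k : ℝ) + β) ≠ 0 :=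
    (Real.Gamma_pos_of_pos (by positivity)).ne'
  rw [e0, e1, e2]
  field_simp

theorem add_num {ψ : ℕ → ℝ} {a c β : ℝ} (ha : 0 < a) (hc : 0 < c) (hβ : 0 < β)
    (hcond : a * (β - 1) ≤ 2 * c) (h : T (fun m => ψ m / Real.Gamma (c * (m : ℝ) + β))) :
    T (fun k => ψ (2 * k) * (Real.Gamma (a * (k : ℝ) + 1) /
      Real.Gamma ((a + 2 * c) * (k : ℝ) + β))) := by
  rcases lt_or_eq_of_le hcond with hlt | heq
  · exact addN_strict ha hc hβ hlt h
  · have hβ1 : 0 < β - 1 := by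
      by_contra hcon
      have : a * (β - 1) ≤ 0 := mul_nonpos_of_nonneg_of_nonpos ha.le (not_lt.mp hcon)
      linarith
    have hlim : Tendsto (fun n : ℕ => a * (1 - 1 / ((n : ℝ) + 2))) atTop (𝓝 a) := by
      have h0 : Tendsto (fun n : ℕ => 1 / ((n : ℝ) + 2)) atTop (𝓝 0) := by
        have h1 : Tendsto (fun n : ℕ => ((n : ℝ) + 2)) atTop atTop :=
          tendsto_atTop_add_const_right _ _ tendsto_natCast_atTop_atTop
        have h2 := h1.inv_tendsto_atTop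
        refine h2.congr (fun n => ?_)
        rw [Pi.inv_apply, one_div]
      have h2 := (h0.const_sub 1).const_mul a
      rw [sub_zero, mul_one] at h2
      exact h2
    refine T_lim_ev (φ := fun n k => ψ (2 * k) *
      (Real.Gamma ((a * (1 - 1 / ((n : ℝ) + 2))) * (k : ℝ) + 1) /
      Real.Gamma (((a * (1 - 1 / ((n : ℝ) + 2))) + 2 * c) * (k : ℝ) + β))) ?_ ?_
    · refine Eventually.of_forall (fun n => ?_)
      have hn : (0 : ℝ) ≤ (n : ℝ) := Nat.cast_nonneg n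
      have hn2 : 0 < 1 / ((n : ℝ) + 2) := by positivity
      have hn3 : 1 / ((n : ℝ) + 2) < 1 := by
        rw [div_lt_one (by linarith)]
        linarith
      have hpos : 0 < a * (1 - 1 / ((n : ℝ) + 2)) := mul_pos ha (by linarith)
      refine addN_strict hpos hc hβ ?_ h
      have : a * (1 - 1 / ((n : ℝ) + 2)) * (β - 1) < a * (β - 1) := by
        apply mul_lt_mul_of_pos_right _ hβ1
        have := mul_pos ha hn2
        linarith
      linarith
    · intro k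
      have hk : (0 : ℝ) ≤ (k : ℝ) := Nat.cast_nonneg k
      have g1 : Tendsto (fun n : ℕ => Real.Gamma ((a * (1 - 1 / ((n : ℝ) + 2))) * (k : ℝ) + 1))
          atTop (𝓝 (Real.Gamma (a * (k : ℝ) + 1))) := by
        have hc1 : ContinuousAt Real.Gamma (a * (k : ℝ) + 1) := addN_cont (by positivity)
        exact hc1.tendsto.comp ((hlim.mul_const (k : ℝ)).add_const 1)
      have g2 : Tendsto (fun n : ℕ =>
          Real.Gamma (((a * (1 - 1 / ((n : ℝ) + 2))) + 2 * c) * (k : ℝ) + β))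
          atTop (𝓝 (Real.Gamma ((a + 2 * c) * (k : ℝ) + β))) := by
        have hc1 : ContinuousAt Real.Gamma ((a + 2 * c) * (k : ℝ) + β) :=
          addN_cont (by positivity)
        exact hc1.tendsto.comp (((hlim.add_const (2 * c)).mul_const (k : ℝ)).add_const β)
      have hne : Real.Gamma ((a + 2 * c) * (k : ℝ) + β) ≠ 0 :=
        (Real.Gamma_pos_of_pos (by positivity)).ne'
      exact (g1.div g2 hne).const_mul (ψ (2 * k))

theorem one_num {a c β : ℝ} (ha : 0 < a) (hc : 2 ≤ c) (hβ0 : 0 < β) (hβ : β ≤ c)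
    (hcond : a * (β - 1) ≤ 2 * c) :
    T (fun k => Real.Gamma (a * (k : ℝ) + 1) / Real.Gamma ((a + 2 * c) * (k : ℝ) + β)) := by
  have h1 := add_num (ψ := fun _ => 1) ha (by linarith : 0 < c) hβ0 hcond (T_ML hc hβ0 hβ)
  exact T_congr h1 (fun k => by rw [one_mul])

theorem two_num {a b c β : ℝ} (ha : 0 < a) (hb : 0 < b) (hc : 2 ≤ c) (hβ0 : 0 < β) (hβ : β ≤ c)
    (hcond : a * (β - 1) ≤ 4 * c) (hcond2 : b * (β - 1) ≤ a + 4 * c) :
    T (fun k => Real.Gamma (a * (k : ℝ) + 1) * Real.Gamma (b * (k : ℝ) + 1) /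
      Real.Gamma ((a + b + 4 * c) * (k : ℝ) + β)) := by
  have h1 := one_num (a := a / 2) (by linarith) hc hβ0 hβ (by linarith)
  have h2 := add_num (ψ := fun m => Real.Gamma (a / 2 * (m : ℝ) + 1)) (a := b)
    (c := a / 2 + 2 * c) hb (by linarith) hβ0 (by linarith) h1
  refine T_congr h2 (fun k => ?_)
  have e0 : a / 2 * ((2 * k : ℕ) : ℝ) + 1 = a * (k : ℝ) + 1 := by push_cast; ring
  have e1 : (b + 2 * (a / 2 + 2 * c)) * (k : ℝ) + β = (a + b + 4 * c) * (k : ℝ) + β := by ring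
  rw [e0, e1, mul_div_assoc]

theorem two_seed {a b : ℝ} (ha : 0 < a) (hb : 0 < b) (ha4 : a ≤ 4) (hba : b ≤ a + 4) :
    T (fun k => Real.Gamma (a * (k : ℝ) + 1) * Real.Gamma (b * (k : ℝ) + 1) /
      Real.Gamma ((a + b + 4) * (k : ℝ) + 2)) := by
  have h1 := T_seed (a := a / 2) (by linarith) (by linarith)
  have h2 := add_num (ψ := fun m => Real.Gamma (a / 2 * (m : ℝ) + 1)) (a := b)
    (c := a / 2 + 2) (β := 2) hb (by linarith) two_pos (by linarith) h1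
  refine T_congr h2 (fun k => ?_)
  have e0 : a / 2 * ((2 * k : ℕ) : ℝ) + 1 = a * (k : ℝ) + 1 := by push_cast; ring
  have e1 : (b + 2 * (a / 2 + 2)) * (k : ℝ) + 2 = (a + b + 4) * (k : ℝ) + 2 := by ring
  rw [e0, e1, mul_div_assoc]

end Pool.Agent.Lib.MP_8382de_an.ALG
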