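import Pool.Agent.Lib.MP_8382de_an.ALG.Defs

/-!
# ALG.Expo: the exponential sequence

`p_n = (1 + C (1/(n+1)) * X)^(n+1)`. `Neg (p_n)`: constant term 1; `aeval z p_n = (1 + z/(n+1))^(n+1)`
vanishes only at `z = -(n+1)`. Coefficient: `coeff k = choose (n+1) k / (n+1)^k → 1/k!`
(for fixed `k`; e.g. `choose N k = descFactorial N k / k!` and
`descFactorial N k / N^k = ∏_{j<k} (N - j)/N → 1`, by induction on `k` or
`tendsto_finset_prod`).
(`(1 + C a * X)^N` coefficient: `Polynomial.coeff_one_add_X_pow` after `comp`/scaling, or `add_pow`,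
or use the polynomial `((1 + X)^N).comp (C a * X)` and `comp_C_mul_X_coeff`.)
-/

set_option autoImplicit false

namespace Pool.Agent.Lib.MP_8382de_an.ALG

open Polynomial Filter Topology

theorem T_exp : T (fun k => 1 / (k.factorial : ℝ)) := by
  have h0 : Tendsto (fun n : ℕ => (n : ℝ) * ((n : ℝ)⁻¹)) atTop (𝓝 1) := by
    refine tendsto_const_nhds.congr' ?_
    filter_upwards [eventually_gt_atTop 0] with n hn
    rw [mul_inv_cancel₀]
    exact_mod_cast hn.ne'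
  refine ⟨fun n => ((1 + X : Polynomial ℝ) ^ (n + 1)).comp (C (((n + 1 : ℕ) : ℝ)⁻¹) * X),
    fun n => ⟨?_, fun z hz => ?_⟩, fun k => ?_⟩
  · rw [comp_C_mul_X_coeff, coeff_one_add_X_pow]
    simp
  · have hn : (((n + 1 : ℕ) : ℝ) : ℂ) ≠ 0 := by
      exact_mod_cast Nat.succ_ne_zero n
    have h1 : (1 + (((n + 1 : ℕ) : ℝ) : ℂ)⁻¹ * z) ^ (n + 1) = 0 := by
      simpa [aeval_comp, Complex.ofReal_inv] using hz
    have h2 : 1 + (((n + 1 : ℕ) : ℝ) : ℂ)⁻¹ * z = 0 := by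
      exact eq_zero_of_pow_eq_zero h1
    have h3 : z = ((-((n + 1 : ℕ) : ℝ) : ℝ) : ℂ) := by
      have h4 : (((n + 1 : ℕ) : ℝ) : ℂ) * (1 + (((n + 1 : ℕ) : ℝ) : ℂ)⁻¹ * z) = 0 := by
        rw [h2, mul_zero]
      rw [mul_add, mul_one, ← mul_assoc, mul_inv_cancel₀ hn, one_mul] at h4
      rw [Complex.ofReal_neg]
      exact eq_neg_of_add_eq_zero_right h4
    rw [h3]
    refine ⟨Complex.ofReal_im _, ?_⟩
    rw [Complex.ofReal_re]
    have : (0 : ℝ) < ((n + 1 : ℕ) : ℝ) := by exact_mod_cast Nat.succ_pos n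
    linarith
  · have h1 := ProbabilityTheory.tendsto_choose_mul_pow_atTop k h0
    have h2 := h1.comp (tendsto_add_atTop_nat 1)
    rw [one_pow] at h2
    refine h2.congr fun n => ?_
    rw [comp_C_mul_X_coeff, coeff_one_add_X_pow]
    rfl

end Pool.Agent.Lib.MP_8382de_an.ALG
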