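import Pool.Agent.Lib.MP_8382de_an.ALG.LagP

/-!
# ALG.LagG: Laguerre multipliers `1/Γ(e k + β)`

`Real.GammaSeq s n = n^s n! / ∏_{j=0}^{n} (s + j) → Γ(s)` (`Real.GammaSeq_tendsto_Gamma`), so for
`s > 0`: `∏_{j=0}^n (s + j) / (n^s n!) → 1/Γ(s)` (`Tendsto.inv₀`, `Real.Gamma_pos_of_pos`).
With `s = e k + β`: for fixed `n ≥ 1` the sequence
`k ↦ φ k * ∏_{j=0}^n (e k + β + j) / (n^(e k + β) n!)` is in `T`: apply `T_lin` `n+1` times (with
`β + j > 0`; induction on the number of factors) and `T_scale` with `c = 1/(n^β n!)`,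
`r = n^(-e) > 0` (`n^(e k) = (n^e)^k`, `Real.rpow_mul`, `Real.rpow_natCast`). Then `T_lim_ev`.
-/

set_option autoImplicit false

namespace Pool.Agent.Lib.MP_8382de_an.ALG

open Polynomial Filter Topology

theorem T_prod {φ : ℕ → ℝ} (h : T φ) {e β : ℝ} (he : 0 ≤ e) (hβ : 0 < β) (n : ℕ) :
    T (fun k => (∏ j ∈ Finset.range n, (e * (k : ℝ) + β + j)) * φ k) := by
  induction n with
  | zero => exact T_congr h (fun k => by simp)
  | succ n ih =>
    have hβn : 0 < β + (n : ℝ) := by positivity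
    refine T_congr (T_lin ih he hβn) (fun k => ?_)
    rw [Finset.prod_range_succ]
    ring

theorem T_gamma {φ : ℕ → ℝ} (h : T φ) {e β : ℝ} (he : 0 ≤ e) (hβ : 0 < β) :
    T (fun k => φ k / Real.Gamma (e * (k : ℝ) + β)) := by
  refine T_lim_ev (φ := fun n k => ((n : ℝ) ^ β * (n.factorial : ℝ))⁻¹ * ((n : ℝ) ^ (-e)) ^ k *
    ((∏ j ∈ Finset.range (n + 1), (e * (k : ℝ) + β + j)) * φ k)) ?_ ?_
  · filter_upwards [eventually_ge_atTop 1] with n hn
    have hn0 : (0 : ℝ) < n := by exact_mod_cast hn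
    exact T_scale (T_prod h he hβ (n + 1)) (by positivity) (by positivity)
  · intro k
    have hs : 0 < e * (k : ℝ) + β := by positivity
    have hG := Real.GammaSeq_tendsto_Gamma (e * (k : ℝ) + β)
    have hinv := (hG.inv₀ (Real.Gamma_pos_of_pos hs).ne').const_mul (φ k)
    rw [← div_eq_mul_inv] at hinv
    refine hinv.congr' ?_
    filter_upwards [eventually_ge_atTop 1] with n hn
    have hn0 : (0 : ℝ) < n := by exact_mod_cast hn
    have hpow : ((n : ℝ) ^ (-e)) ^ k * (n : ℝ) ^ (e * (k : ℝ) + β) = (n : ℝ) ^ β := by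
      rw [← Real.rpow_natCast ((n : ℝ) ^ (-e)) k, ← Real.rpow_mul hn0.le,
        ← Real.rpow_add hn0]
      congr 1
      ring
    have h1 : (n : ℝ) ^ (e * (k : ℝ) + β) ≠ 0 := (Real.rpow_pos_of_pos hn0 _).ne'
    have h2 : (n : ℝ) ^ β ≠ 0 := (Real.rpow_pos_of_pos hn0 _).ne'
    have h3 : (n.factorial : ℝ) ≠ 0 := by positivity
    have h4 : (∏ j ∈ Finset.range (n + 1), (e * (k : ℝ) + β + j)) ≠ 0 := by
      refine Finset.prod_ne_zero_iff.mpr (fun j _ => ?_)
      positivity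
    have h5 : ((n : ℝ) ^ (-e)) ^ k = (n : ℝ) ^ β / (n : ℝ) ^ (e * (k : ℝ) + β) := by
      rw [eq_div_iff h1, hpow]
    rw [Real.GammaSeq, h5]
    field_simp

end Pool.Agent.Lib.MP_8382de_an.ALG
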