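import Pool.Agent.Lib.MP_8382de_an.ALG.BetR
import Pool.Agent.Lib.MP_8382de_an.ALG.LagG
import Pool.Agent.Lib.MP_8382de_an.ALG.Expo

/-!
# ALG.BaseE: Mittag-Leffler sequences and the seeds

`T_ML`: for `κ ≥ 2`, `0 < β ≤ κ`: `T (1/Γ(κ k + β))`.
First let `κ > 2`, `γ = κ/2 - 1 > 0`.
 * `β < κ/2`: `ψ m = (1/m!) / Γ(γ m + β)` is in `T` (`T_exp`, `T_gamma`). `step_even` with
   `(a, α) = (1, 1)`, `(b, β) = (γ, β)`: `h1 : 1 < 1 + β`, `hc1 : β - 1 < γ`, `hc2 : 0 < β`. The result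
   at `k` is `1/(2k)! / Γ(2γk+β) * (Γ(2k+1) Γ(2γk+β)/Γ((1+γ) 2k + β)) = 1/Γ(κ k + β)`
   (`Real.Gamma_nat_eq_factorial`).
 * `κ/2 < β < κ`: the same with `β' = β - κ/2 ∈ (0, κ/2)` and `step_odd` (`ψ 1 > 0`): the result at
   `k` is `1/Γ((1+γ)(2k+1) + β') = 1/Γ(κ k + β)`.
General `κ ≥ 2`, `0 < β ≤ κ`: `κ_n = κ + 1/(n+1) > 2`. If `β ≤ κ/2` then `β < κ_n/2` for all `n`; if
`β > κ/2` then `κ_n/2 < β ≤ κ < κ_n` for large `n`. `T_lim_ev` (continuity of `Γ` on `(0,∞)`: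
`Real.continuousAt_Gamma` / `Real.differentiableAt_Gamma`).

`T_seed`: for `0 < a ≤ 2`: `T (Γ(a k + 1)/Γ((a+2) k + 2))`. First `a < 2`: `a₁ = a/2 < 1`,
`step_odd` for `ψ m = 1/m!` with `(a, α) = (1, 1)`, `(b, β) = (a₁, 1 - a₁)`:
`h1 : 1 < 2 - a₁`, `hc1 : -a₁ < a₁`, `hc2 : 0 < 1 - a₁`. At `k`:
`1/(2k+1)! * (Γ(2k+2) Γ(a₁(2k+1) + 1 - a₁)/Γ((1+a₁)(2k+1) + 1 - a₁)) = Γ(a k+1)/Γ((a+2)k+2)`.
`a = 2`: limit `a_n = 2 - 1/(n+1)`, `T_lim_ev`.
-/

set_option autoImplicit false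

namespace Pool.Agent.Lib.MP_8382de_an.ALG

open Filter Topology

private lemma BaseE_fact (n : ℕ) (x : ℝ) (hx : x = (n : ℝ) + 1) :
    Real.Gamma x = (n.factorial : ℝ) := by
  rw [hx, Real.Gamma_nat_eq_factorial]

private lemma BaseE_alg {f g h : ℝ} (hf : f ≠ 0) (hg : g ≠ 0) :
    1 / f / g * (f * g / h) = 1 / h := by
  field_simp

private lemma BaseE_gt {κ β : ℝ} (hκ : 2 < κ) (hβ0 : 0 < β) (hβ : β < κ / 2) :
    T (fun k => 1 / Real.Gamma (κ * (k : ℝ) + β)) := by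
  have hγ : 0 < κ / 2 - 1 := by linarith
  have h1 := step_even (a := 1) (b := κ / 2 - 1) (α := 1) (β := β) one_pos hγ one_pos hβ0
    (by linarith) (by linarith) (by linarith) (T_gamma T_exp hγ.le hβ0)
  refine T_congr h1 fun k => ?_
  have hk : (0 : ℝ) ≤ k := Nat.cast_nonneg k
  have hc : (((2 * k : ℕ) : ℕ) : ℝ) = 2 * (k : ℝ) := by push_cast; ring
  have hG : Real.Gamma (1 * (2 * (k : ℝ)) + 1) = (((2 * k : ℕ)).factorial : ℝ) :=
    BaseE_fact (2 * k) _ (by push_cast; ring)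
  have hf : (((2 * k : ℕ)).factorial : ℝ) ≠ 0 := by positivity
  have hGp : Real.Gamma ((κ / 2 - 1) * (2 * (k : ℝ)) + β) ≠ 0 :=
    (Real.Gamma_pos_of_pos (by positivity)).ne'
  have he : (1 + (κ / 2 - 1)) * (2 * (k : ℝ)) + (1 + β - 1) = κ * (k : ℝ) + β := by ring
  rw [he, hG, hc]
  exact BaseE_alg hf hGp

private lemma BaseE_lt {κ β : ℝ} (hκ : 2 < κ) (hβ0 : κ / 2 < β) (hβ : β < κ) :
    T (fun k => 1 / Real.Gamma (κ * (k : ℝ) + β)) := by
  have hγ : 0 < κ / 2 - 1 := by linarith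
  have hβ' : 0 < β - κ / 2 := by linarith
  have hψ1 : (0 : ℝ) < 1 / ((1 : ℕ).factorial : ℝ) /
      Real.Gamma ((κ / 2 - 1) * ((1 : ℕ) : ℝ) + (β - κ / 2)) := by
    have : 0 < Real.Gamma ((κ / 2 - 1) * ((1 : ℕ) : ℝ) + (β - κ / 2)) := by
      apply Real.Gamma_pos_of_pos
      push_cast
      linarith
    positivity
  have h1 := step_odd (a := 1) (b := κ / 2 - 1) (α := 1) (β := β - κ / 2) one_pos hγ one_pos hβ'
    (by linarith) (by linarith) (by linarith) (T_gamma T_exp hγ.le hβ') hψ1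
  refine T_congr h1 fun k => ?_
  have hk : (0 : ℝ) ≤ k := Nat.cast_nonneg k
  have hc : (((2 * k + 1 : ℕ) : ℕ) : ℝ) = 2 * (k : ℝ) + 1 := by push_cast; ring
  have hG : Real.Gamma (1 * (2 * (k : ℝ) + 1) + 1) = (((2 * k + 1 : ℕ)).factorial : ℝ) :=
    BaseE_fact (2 * k + 1) _ (by push_cast; ring)
  have hf : (((2 * k + 1 : ℕ)).factorial : ℝ) ≠ 0 := by positivity
  have hGp : Real.Gamma ((κ / 2 - 1) * (2 * (k : ℝ) + 1) + (β - κ / 2)) ≠ 0 :=
    (Real.Gamma_pos_of_pos (by positivity)).ne'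
  have he : (1 + (κ / 2 - 1)) * (2 * (k : ℝ) + 1) + (1 + (β - κ / 2) - 1) =
      κ * (k : ℝ) + β := by ring
  rw [he, hG, hc]
  exact BaseE_alg hf hGp

private lemma BaseE_cont {x : ℕ → ℝ} {y : ℝ} (hy : 0 < y) (h : Tendsto x atTop (𝓝 y)) :
    Tendsto (fun n => Real.Gamma (x n)) atTop (𝓝 (Real.Gamma y)) := by
  have h1 : DifferentiableAt ℝ Real.Gamma y := by
    apply Real.differentiableAt_Gamma
    intro m
    have : (0 : ℝ) ≤ m := Nat.cast_nonneg m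
    linarith
  exact h1.continuousAt.tendsto.comp h

theorem T_ML {κ β : ℝ} (hκ : 2 ≤ κ) (hβ0 : 0 < β) (hβ : β ≤ κ) :
    T (fun k => 1 / Real.Gamma (κ * (k : ℝ) + β)) := by
  have hκn : Tendsto (fun n : ℕ => κ + 1 / ((n : ℝ) + 1)) atTop (𝓝 κ) := by
    have := tendsto_one_div_add_atTop_nhds_zero_nat (𝕜 := ℝ)
    have h2 := this.const_add κ
    rw [add_zero] at h2
    exact h2
  refine T_lim_ev (φ := fun n k => 1 / Real.Gamma ((κ + 1 / ((n : ℝ) + 1)) * (k : ℝ) + β)) ?_ ?_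
  · rcases le_or_gt β (κ / 2) with hc | hc
    · refine Eventually.of_forall fun n => ?_
      have hn : (0 : ℝ) < 1 / ((n : ℝ) + 1) := by positivity
      exact BaseE_gt (by linarith) hβ0 (by linarith)
    · have h1 : ∀ᶠ n : ℕ in atTop, κ + 1 / ((n : ℝ) + 1) < 2 * β :=
        hκn.eventually_lt_const (by linarith)
      filter_upwards [h1] with n hn
      have hn0 : (0 : ℝ) < 1 / ((n : ℝ) + 1) := by positivity
      exact BaseE_lt (by linarith) (by linarith) (by linarith)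
  · intro k
    have hk : (0 : ℝ) ≤ k := Nat.cast_nonneg k
    have hpos : 0 < κ * (k : ℝ) + β := by nlinarith
    have h2 : Tendsto (fun n : ℕ => (κ + 1 / ((n : ℝ) + 1)) * (k : ℝ) + β) atTop
        (𝓝 (κ * (k : ℝ) + β)) := (hκn.mul_const _).add_const _
    exact (tendsto_const_nhds (x := (1 : ℝ))).div (BaseE_cont hpos h2)
      (Real.Gamma_pos_of_pos hpos).ne'

private lemma BaseE_seed {a : ℝ} (ha : 0 < a) (ha2 : a < 2) :
    T (fun k => Real.Gamma (a * (k : ℝ) + 1) / Real.Gamma ((a + 2) * (k : ℝ) + 2)) := by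
  have hψ1 : (0 : ℝ) < 1 / ((1 : ℕ).factorial : ℝ) := by positivity
  have h1 := step_odd (a := 1) (b := a / 2) (α := 1) (β := 1 - a / 2) one_pos (by linarith)
    one_pos (by linarith) (by linarith) (by linarith) (by linarith) T_exp hψ1
  refine T_congr h1 fun k => ?_
  have hk : (0 : ℝ) ≤ k := Nat.cast_nonneg k
  have hG : Real.Gamma (1 * (2 * (k : ℝ) + 1) + 1) = (((2 * k + 1 : ℕ)).factorial : ℝ) :=
    BaseE_fact (2 * k + 1) _ (by push_cast; ring)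
  have hf : (((2 * k + 1 : ℕ)).factorial : ℝ) ≠ 0 := by positivity
  have he : (1 + a / 2) * (2 * (k : ℝ) + 1) + (1 + (1 - a / 2) - 1) =
      (a + 2) * (k : ℝ) + 2 := by ring
  have he2 : a / 2 * (2 * (k : ℝ) + 1) + (1 - a / 2) = a * (k : ℝ) + 1 := by ring
  rw [he, he2, hG]
  have hGk : Real.Gamma ((a + 2) * (k : ℝ) + 2) ≠ 0 :=
    (Real.Gamma_pos_of_pos (by positivity)).ne'
  field_simp

theorem T_seed {a : ℝ} (ha : 0 < a) (ha2 : a ≤ 2) :
    T (fun k => Real.Gamma (a * (k : ℝ) + 1) / Real.Gamma ((a + 2) * (k : ℝ) + 2)) := by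
  rcases lt_or_eq_of_le ha2 with hlt | heq
  · exact BaseE_seed ha hlt
  · subst heq
    have han : Tendsto (fun n : ℕ => 2 - 1 / ((n : ℝ) + 1)) atTop (𝓝 (2 : ℝ)) := by
      have := tendsto_one_div_add_atTop_nhds_zero_nat (𝕜 := ℝ)
      have h2 := this.const_sub 2
      rw [sub_zero] at h2
      exact h2
    refine T_lim_ev (φ := fun n k => Real.Gamma ((2 - 1 / ((n : ℝ) + 1)) * (k : ℝ) + 1) /
      Real.Gamma ((2 - 1 / ((n : ℝ) + 1) + 2) * (k : ℝ) + 2)) ?_ ?_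
    · refine Eventually.of_forall fun n => ?_
      have hn0 : (0 : ℝ) < 1 / ((n : ℝ) + 1) := by positivity
      have hn1 : 1 / ((n : ℝ) + 1) ≤ 1 := by
        rw [div_le_one (by positivity)]
        have : (0 : ℝ) ≤ n := Nat.cast_nonneg n
        linarith
      exact BaseE_seed (by linarith) (by linarith)
    · intro k
      have hk : (0 : ℝ) ≤ k := Nat.cast_nonneg k
      have hpos1 : 0 < (2 : ℝ) * (k : ℝ) + 1 := by positivity
      have hpos2 : 0 < ((2 : ℝ) + 2) * (k : ℝ) + 2 := by positivity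
      have h2 : Tendsto (fun n : ℕ => (2 - 1 / ((n : ℝ) + 1)) * (k : ℝ) + 1) atTop
          (𝓝 ((2 : ℝ) * (k : ℝ) + 1)) := (han.mul_const _).add_const _
      have h3 : Tendsto (fun n : ℕ => (2 - 1 / ((n : ℝ) + 1) + 2) * (k : ℝ) + 2) atTop
          (𝓝 (((2 : ℝ) + 2) * (k : ℝ) + 2)) := ((han.add_const _).mul_const _).add_const _
      exact (BaseE_cont hpos1 h2).div (BaseE_cont hpos2 h3) (Real.Gamma_pos_of_pos hpos2).ne'

end Pool.Agent.Lib.MP_8382de_an.ALG
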