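import Pool.Agent.Lib.MP_8382de_an.ALG.Defs

/-!
# ALG.BetA: elementary facts on `sfn` and `wfn`

`a, b > 0`, `c = a + b`, `u* = a/c`, `s(u) = (u/u*)^a ((1-u)/(1-u*))^b`.
* `ust_mem`: clear. `smax_pos`: clear.
* `sfn_pos`: product of positive powers.
* `neg_log_sfn_le`: `-log s(u) = a log (u*/u) + b log ((1-u*)/(1-u)) ≤ a (u*/u - 1) +
  b ((1-u*)/(1-u) - 1) = (u - u*) (b/(1-u) - a/u) = (u-u*)(c u - a)/(u (1-u))
  = (a - c u)^2 / (c u (1-u))` (`Real.log_le_sub_one_of_pos`, `u* = a/c`). (`Real.log_mul`, `Real.log_rpow`.)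
* `sfn_le_one`: weighted AM-GM: with the weights `a/c, b/c`,
  `(u/u*)^(a/c) ((1-u)/(1-u*))^(b/c) ≤ (a/c)(u/u*) + (b/c)((1-u)/(1-u*)) = u + (1-u) = 1`
  (`Real.geom_mean_le_arith_mean2_weighted`), then take the power `c`. Or: `log s(u) =
  a log (u/u*) + b log ((1-u)/(1-u*)) ≤ a (u/u* - 1) + b ((1-u)/(1-u*) - 1) = 0`
  (`a u/u* = c u`, `b (1-u)/(1-u*) = c (1-u)`), and `s = exp (log s) ≤ 1`.
* `one_sub_sfn_nonneg`, `one_sub_sfn_le`: `s^p = exp (p log s)`, `1 - exp (-x) ≤ x`.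
* `wfn_nonneg`: all factors are nonnegative (square in the denominator).
-/

set_option autoImplicit false

namespace Pool.Agent.Lib.MP_8382de_an.ALG

theorem ust_mem {a b : ℝ} (ha : 0 < a) (hb : 0 < b) : 0 < ust a b ∧ ust a b < 1 := by
  unfold ust
  have hc : 0 < a + b := add_pos ha hb
  exact ⟨div_pos ha hc, (div_lt_one hc).2 (by linarith)⟩

theorem smax_pos {a b : ℝ} (ha : 0 < a) (hb : 0 < b) : 0 < smax a b := by
  obtain ⟨h0, h1⟩ := ust_mem ha hb
  unfold smax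
  exact mul_pos (Real.rpow_pos_of_pos h0 _) (Real.rpow_pos_of_pos (by linarith) _)

theorem sfn_eq {a b u : ℝ} (ha : 0 < a) (hb : 0 < b) (hu : u ∈ Set.Ioo (0 : ℝ) 1) :
    sfn a b u = u ^ a * (1 - u) ^ b / smax a b := by
  obtain ⟨h0, h1⟩ := ust_mem ha hb
  have h2 : 0 < 1 - ust a b := by linarith
  unfold sfn smax
  rw [Real.div_rpow hu.1.le h0.le, Real.div_rpow (by linarith [hu.2]) h2.le, div_mul_div_comm]

theorem sfn_pos {a b u : ℝ} (ha : 0 < a) (hb : 0 < b) (hu : u ∈ Set.Ioo (0 : ℝ) 1) :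
    0 < sfn a b u := by
  rw [sfn_eq ha hb hu]
  exact div_pos (mul_pos (Real.rpow_pos_of_pos hu.1 _)
    (Real.rpow_pos_of_pos (by linarith [hu.2]) _)) (smax_pos ha hb)

private lemma betA_log {a b u : ℝ} (ha : 0 < a) (hb : 0 < b) (hu : u ∈ Set.Ioo (0 : ℝ) 1) :
    Real.log (sfn a b u) =
      a * Real.log (u / ust a b) + b * Real.log ((1 - u) / (1 - ust a b)) := by
  obtain ⟨h0, h1⟩ := ust_mem ha hb
  have h2 : 0 < 1 - ust a b := by linarith
  have h3 : 0 < u / ust a b := div_pos hu.1 h0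
  have h4 : 0 < (1 - u) / (1 - ust a b) := div_pos (by linarith [hu.2]) h2
  unfold sfn
  rw [Real.log_mul (Real.rpow_pos_of_pos h3 _).ne' (Real.rpow_pos_of_pos h4 _).ne',
    Real.log_rpow h3, Real.log_rpow h4]

private lemma betA_log_le {a b u : ℝ} (ha : 0 < a) (hb : 0 < b) (hu : u ∈ Set.Ioo (0 : ℝ) 1) :
    Real.log (sfn a b u) ≤ 0 := by
  obtain ⟨h0, h1⟩ := ust_mem ha hb
  have h2 : 0 < 1 - ust a b := by linarith
  have h3 : 0 < u / ust a b := div_pos hu.1 h0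
  have h4 : 0 < (1 - u) / (1 - ust a b) := div_pos (by linarith [hu.2]) h2
  have hc : 0 < a + b := add_pos ha hb
  rw [betA_log ha hb hu]
  have e1 := mul_le_mul_of_nonneg_left (Real.log_le_sub_one_of_pos h3) ha.le
  have e2 := mul_le_mul_of_nonneg_left (Real.log_le_sub_one_of_pos h4) hb.le
  have e3 : a * (u / ust a b - 1) + b * ((1 - u) / (1 - ust a b) - 1) = 0 := by
    have h5 : (1 : ℝ) - a / (a + b) = b / (a + b) := by field_simp; ring
    unfold ust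
    rw [h5]
    field_simp
    ring
  linarith

private lemma betA_neg_log {a b u : ℝ} (ha : 0 < a) (hb : 0 < b)
    (hu : u ∈ Set.Ioo (0 : ℝ) 1) :
    -Real.log (sfn a b u) ≤ (a - (a + b) * u) ^ 2 / ((a + b) * (u * (1 - u))) := by
  obtain ⟨h0, h1⟩ := ust_mem ha hb
  have h2 : 0 < 1 - ust a b := by linarith
  have hu1 : 0 < 1 - u := by linarith [hu.2]
  have hu0 : 0 < u := hu.1
  have h3 : 0 < ust a b / u := div_pos h0 hu0
  have h4 : 0 < (1 - ust a b) / (1 - u) := div_pos h2 hu1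
  have hc : 0 < a + b := add_pos ha hb
  have e0 : Real.log (sfn a b u) =
      -(a * Real.log (ust a b / u) + b * Real.log ((1 - ust a b) / (1 - u))) := by
    rw [betA_log ha hb hu, Real.log_div hu0.ne' h0.ne', Real.log_div hu1.ne' h2.ne',
      Real.log_div h0.ne' hu0.ne', Real.log_div h2.ne' hu1.ne']
    ring
  rw [e0, neg_neg]
  have e1 := mul_le_mul_of_nonneg_left (Real.log_le_sub_one_of_pos h3) ha.le
  have e2 := mul_le_mul_of_nonneg_left (Real.log_le_sub_one_of_pos h4) hb.le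
  have e3 : a * (ust a b / u - 1) + b * ((1 - ust a b) / (1 - u) - 1) =
      (a - (a + b) * u) ^ 2 / ((a + b) * (u * (1 - u))) := by
    have h5 : (1 : ℝ) - a / (a + b) = b / (a + b) := by field_simp; ring
    unfold ust
    rw [h5]
    field_simp
    ring
  linarith

theorem sfn_le_one {a b u : ℝ} (ha : 0 < a) (hb : 0 < b) (hu : u ∈ Set.Ioo (0 : ℝ) 1) :
    sfn a b u ≤ 1 := by
  have h := sfn_pos ha hb hu
  exact (Real.log_nonpos_iff h.le).1 (betA_log_le ha hb hu)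

theorem one_sub_sfn_nonneg {a b u p : ℝ} (ha : 0 < a) (hb : 0 < b)
    (hu : u ∈ Set.Ioo (0 : ℝ) 1) (hp : 0 ≤ p) : 0 ≤ 1 - sfn a b u ^ p := by
  have := Real.rpow_le_one (sfn_pos ha hb hu).le (sfn_le_one ha hb hu) hp
  linarith

theorem one_sub_sfn_le {a b u p : ℝ} (ha : 0 < a) (hb : 0 < b)
    (hu : u ∈ Set.Ioo (0 : ℝ) 1) (hp : 0 ≤ p) :
    1 - sfn a b u ^ p ≤ p * ((a - (a + b) * u) ^ 2 / ((a + b) * (u * (1 - u)))) := by
  have h := sfn_pos ha hb hu
  have h1 : sfn a b u ^ p = Real.exp (Real.log (sfn a b u) * p) :=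
    Real.rpow_def_of_pos h p
  have h2 := Real.add_one_le_exp (Real.log (sfn a b u) * p)
  have h3 := mul_le_mul_of_nonneg_left (betA_neg_log ha hb hu) hp
  rw [h1]
  linarith

theorem wfn_nonneg {a b r u : ℝ} (ha : 0 < a) (hb : 0 < b) (hr0 : 0 < r) (hr1 : r < 1)
    (hu : u ∈ Set.Ioo (0 : ℝ) 1) : 0 ≤ wfn a b r u := by
  have hu0 : 0 < u := hu.1
  have hu1 : 0 < 1 - u := by linarith [hu.2]
  have hr2 : 0 < 1 - r := by linarith
  unfold wfn
  refine div_nonneg (mul_nonneg (mul_nonneg (by linarith) (mul_nonneg ?_ ?_)) ?_) (sq_nonneg _)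
  · exact (Real.rpow_pos_of_pos hu0 _).le
  · exact (Real.rpow_pos_of_pos hu1 _).le
  · have e1 := mul_pos (mul_pos hr0 ha) hu1
    have e2 := mul_pos (mul_pos hr2 hb) hu0
    linarith

end Pool.Agent.Lib.MP_8382de_an.ALG
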