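import Pool.Agent.Lib.MP_8382de_an.ALG.BetA

/-!
# ALG.BetB: integrability

`a, b > 0`, `c = a+b`, `0 < r < 1`, `p > 0`, `u* = a/c`.

`beta_kernel_int`: `u^(r-1) (1-u)^(-r)` is integrable on `(0,1)` (Beta integral with parameters
`r`, `1-r`; Mathlib: `Complex.betaIntegral_convergent` for the complex version; or split at `1/2`:
`u^(r-1)` integrable near 0 as `r-1 > -1` (`intervalIntegral.intervalIntegrable_rpow'`), the other
factor bounded by `2^r`, similarly near 1).

`beta_int`. `0 ≤ wfn a b r u (1 - s^p) ≤ K u^(r-1) (1-u)^(-r)` on `(0,1)` with a constant `K`: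
`r a (1-u) + (1-r) b u ≤ a + b = c`, so `wfn ≤ c² u^(r-1) (1-u)^(-r) / (a - c u)²`.
Let `η = min (u*/2) ((1-u*)/2)`. If `|u - u*| ≤ η` then `u ≥ u*/2`, `1-u ≥ (1-u*)/2` and by
`one_sub_sfn_le`: `(1 - s^p)/(a - c u)² ≤ p/(c u (1-u)) ≤ 4 p / (c u* (1-u*))` (at `u = u*` the
product `wfn (1 - s^p)` is `0` because of the division by zero). If `|u - u*| ≥ η` then
`(a - c u)² ≥ c² η²` and `0 ≤ 1 - s^p ≤ 1`. Measurability: `wfn` and `sfn` are measurable functions
of `u` (`fun_prop`/`measurability`: `Measurable.pow_const`, `Measurable.div`). `Integrable.mono'`.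

`beta_int2`: `u^(r-1) (1-u)^(-r) s^p` is bounded by the kernel as `0 < s ≤ 1`.
-/

set_option autoImplicit false

namespace Pool.Agent.Lib.MP_8382de_an.ALG

open MeasureTheory

theorem beta_kernel_int {r : ℝ} (hr0 : 0 < r) (hr1 : r < 1) :
    IntegrableOn (fun u : ℝ => u ^ (r - 1) * (1 - u) ^ (-r)) (Set.Ioo 0 1) := by
  have h := Complex.betaIntegral_convergent (u := (r : ℂ)) (v := ((1 - r : ℝ) : ℂ))
    (by rw [Complex.ofReal_re]; exact hr0) (by rw [Complex.ofReal_re]; linarith)
  have h2 := h.norm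
  rw [intervalIntegrable_iff_integrableOn_Ioo_of_le zero_le_one] at h2
  refine h2.congr_fun ?_ measurableSet_Ioo
  intro u hu
  have h3 : (0 : ℝ) < 1 - u := by linarith [hu.2]
  have h4 : (1 - (u : ℂ)) = ((1 - u : ℝ) : ℂ) := by push_cast; rfl
  have h5 : ((r : ℂ) - 1).re = r - 1 := by simp
  have h6 : (((1 - r : ℝ) : ℂ) - 1).re = -r := by simp
  show ‖(u : ℂ) ^ ((r : ℂ) - 1) * (1 - (u : ℂ)) ^ (((1 - r : ℝ) : ℂ) - 1)‖ = _
  rw [norm_mul, h4, Complex.norm_cpow_eq_rpow_re_of_pos hu.1, Complex.norm_cpow_eq_rpow_re_of_pos h3, h5, h6]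

private theorem BetB_sfn_meas (a b : ℝ) : Measurable (fun u : ℝ => sfn a b u) := by
  unfold sfn
  exact ((measurable_id.div_const _).pow_const a).mul (((measurable_const.sub measurable_id).div_const _).pow_const b)

private theorem BetB_ker_meas (r : ℝ) : Measurable (fun u : ℝ => u ^ (r - 1) * (1 - u) ^ (-r)) :=
  (measurable_id.pow_const _).mul ((measurable_const.sub measurable_id).pow_const _)

private theorem BetB_wfn_meas (a b r : ℝ) : Measurable (fun u : ℝ => wfn a b r u) := by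
  unfold wfn
  refine Measurable.div (Measurable.mul (measurable_const.mul (BetB_ker_meas r)) ?_) ?_
  · exact ((measurable_const.mul (measurable_const.sub measurable_id)).add (measurable_const.mul measurable_id))
  · exact (measurable_const.sub (measurable_const.mul measurable_id)).pow_const 2

private theorem BetB_quot {a b p : ℝ} (ha : 0 < a) (hb : 0 < b) (hp : 0 < p) :
    ∃ M : ℝ, 0 ≤ M ∧ ∀ u ∈ Set.Ioo (0 : ℝ) 1, (1 - sfn a b u ^ p) / (a - (a + b) * u) ^ 2 ≤ M := by
  obtain ⟨h1, h2⟩ := ust_mem ha hb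
  have hc : 0 < a + b := by linarith
  set x := ust a b with hx
  have hax : a = (a + b) * x := by
    rw [hx]; unfold ust; field_simp
  set η := min (x / 2) ((1 - x) / 2) with hη
  have hη0 : 0 < η := lt_min (by linarith) (by linarith)
  have hM1 : 0 ≤ p / ((a + b) * (x / 2 * ((1 - x) / 2))) := by
    apply div_nonneg hp.le
    apply mul_nonneg hc.le
    apply mul_nonneg <;> linarith
  have hM2 : 0 ≤ 1 / ((a + b) ^ 2 * η ^ 2) := by positivity
  refine ⟨p / ((a + b) * (x / 2 * ((1 - x) / 2))) + 1 / ((a + b) ^ 2 * η ^ 2), add_nonneg hM1 hM2, ?_⟩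
  intro u hu
  have hn := one_sub_sfn_nonneg ha hb hu hp.le
  by_cases h0 : a - (a + b) * u = 0
  · rw [h0]
    simp only [ne_eq, OfNat.ofNat_ne_zero, not_false_eq_true, zero_pow, div_zero]
    exact add_nonneg hM1 hM2
  have hsq : 0 < (a - (a + b) * u) ^ 2 := by positivity
  by_cases hcase : |u - x| ≤ η
  · have h3 := abs_le.1 hcase
    have h4 : η ≤ x / 2 := min_le_left _ _
    have h5 : η ≤ (1 - x) / 2 := min_le_right _ _
    have h6 : x / 2 ≤ u := by linarith
    have h7 : (1 - x) / 2 ≤ 1 - u := by linarith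
    have h8 := one_sub_sfn_le ha hb hu hp.le
    have h9 : (1 - sfn a b u ^ p) / (a - (a + b) * u) ^ 2 ≤ p / ((a + b) * (u * (1 - u))) := by
      rw [div_le_iff₀ hsq]
      refine h8.trans (le_of_eq ?_)
      ring
    have h10 : p / ((a + b) * (u * (1 - u))) ≤ p / ((a + b) * (x / 2 * ((1 - x) / 2))) := by
      apply div_le_div_of_nonneg_left hp.le
      · apply mul_pos hc
        apply mul_pos <;> linarith
      · apply mul_le_mul_of_nonneg_left _ hc.le
        apply mul_le_mul h6 h7 (by linarith) (by linarith)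
    linarith
  · rw [not_le] at hcase
    have h3 : (a + b) ^ 2 * η ^ 2 ≤ (a - (a + b) * u) ^ 2 := by
      have h4 : (a - (a + b) * u) ^ 2 = (a + b) ^ 2 * |u - x| ^ 2 := by
        have h5 : a - (a + b) * u = (a + b) * (x - u) := by rw [mul_sub, ← hax]
        rw [sq_abs, h5]
        ring
      rw [h4]
      apply mul_le_mul_of_nonneg_left _ (by positivity)
      exact pow_le_pow_left₀ hη0.le hcase.le 2
    have h4 : 1 - sfn a b u ^ p ≤ 1 := by
      have := Real.rpow_nonneg (sfn_pos ha hb hu).le p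
      linarith
    have h5 : (1 - sfn a b u ^ p) / (a - (a + b) * u) ^ 2 ≤ 1 / ((a + b) ^ 2 * η ^ 2) :=
      div_le_div₀ zero_le_one h4 (by positivity) h3
    linarith

theorem beta_int {a b r p : ℝ} (ha : 0 < a) (hb : 0 < b) (hr0 : 0 < r) (hr1 : r < 1)
    (hp : 0 < p) :
    IntegrableOn (fun u : ℝ => wfn a b r u * (1 - sfn a b u ^ p)) (Set.Ioo 0 1) := by
  obtain ⟨M, hM0, hM⟩ := BetB_quot (p := p) ha hb hp
  have hk := (beta_kernel_int hr0 hr1).const_mul ((a + b) * ((a + b) * M))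
  refine MeasureTheory.Integrable.mono' hk ?_ ?_
  · exact ((BetB_wfn_meas a b r).mul (measurable_const.sub ((BetB_sfn_meas a b).pow_const p))).aestronglyMeasurable
  · rw [ae_restrict_iff' measurableSet_Ioo]
    refine Filter.Eventually.of_forall fun u hu => ?_
    have h1 : 0 < 1 - u := by linarith [hu.2]
    have hker : 0 ≤ u ^ (r - 1) * (1 - u) ^ (-r) := mul_nonneg (Real.rpow_nonneg hu.1.le _) (Real.rpow_nonneg h1.le _)
    have hn := one_sub_sfn_nonneg ha hb hu hp.le
    rw [Real.norm_of_nonneg (mul_nonneg (wfn_nonneg ha hb hr0 hr1 hu) hn)]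
    have h2 : wfn a b r u * (1 - sfn a b u ^ p) = (a + b) * ((r * a * (1 - u) + (1 - r) * b * u) *
        ((1 - sfn a b u ^ p) / (a - (a + b) * u) ^ 2)) * (u ^ (r - 1) * (1 - u) ^ (-r)) := by
      unfold wfn
      ring
    rw [h2]
    apply mul_le_mul_of_nonneg_right _ hker
    apply mul_le_mul_of_nonneg_left _ (by linarith)
    have h3 : 0 ≤ r * a * (1 - u) + (1 - r) * b * u := by
      have := hu.1
      have h4 : 0 < 1 - r := by linarith
      positivity
    have h4 : r * a * (1 - u) + (1 - r) * b * u ≤ a + b := by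
      have e1 : r * a * (1 - u) ≤ a := by
        have : r * (1 - u) ≤ 1 := by nlinarith [hu.1]
        nlinarith
      have e2 : (1 - r) * b * u ≤ b := by
        have : (1 - r) * u ≤ 1 := by nlinarith [hu.1, hu.2]
        nlinarith
      linarith
    exact mul_le_mul h4 (hM u hu) (div_nonneg hn (by positivity)) (by linarith)

theorem beta_int2 {a b r p : ℝ} (ha : 0 < a) (hb : 0 < b) (hr0 : 0 < r) (hr1 : r < 1)
    (hp : 0 < p) :
    IntegrableOn (fun u : ℝ => (a + b) * p * (u ^ (r - 1) * (1 - u) ^ (-r)) * sfn a b u ^ p)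
      (Set.Ioo 0 1) := by
  have hk := (beta_kernel_int hr0 hr1).const_mul ((a + b) * p)
  refine MeasureTheory.Integrable.mono' hk ?_ ?_
  · exact ((measurable_const.mul (BetB_ker_meas r)).mul ((BetB_sfn_meas a b).pow_const p)).aestronglyMeasurable
  · rw [ae_restrict_iff' measurableSet_Ioo]
    refine Filter.Eventually.of_forall fun u hu => ?_
    have h1 : 0 < 1 - u := by linarith [hu.2]
    have hker : 0 ≤ u ^ (r - 1) * (1 - u) ^ (-r) := mul_nonneg (Real.rpow_nonneg hu.1.le _) (Real.rpow_nonneg h1.le _)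
    have h3 : 0 ≤ (a + b) * p * (u ^ (r - 1) * (1 - u) ^ (-r)) := mul_nonneg (by positivity) hker
    have h4 := Real.rpow_nonneg (sfn_pos ha hb hu).le p
    rw [Real.norm_of_nonneg (mul_nonneg h3 h4)]
    have h5 : sfn a b u ^ p ≤ 1 := Real.rpow_le_one (sfn_pos ha hb hu).le (sfn_le_one ha hb hu) hp.le
    calc (a + b) * p * (u ^ (r - 1) * (1 - u) ^ (-r)) * sfn a b u ^ p
        ≤ (a + b) * p * (u ^ (r - 1) * (1 - u) ^ (-r)) * 1 := mul_le_mul_of_nonneg_left h5 h3
      _ = (a + b) * p * (u ^ (r - 1) * (1 - u) ^ (-r)) := mul_one _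

end Pool.Agent.Lib.MP_8382de_an.ALG
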