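import Pool.Agent.Lib.MP_8382de_an.ALG.BetB

/-!
# ALG.BetC: integration by parts

`a, b > 0`, `c = a+b`, `0 < r < 1`, `p > 0`, `u* = a/c`. Put
`A(u) = c u^r (1-u)^(1-r) / (a - c u)` and `H(u) = A(u) (1 - s(u)^p)` for `u ∈ [0,1]`, `u ≠ u*`,
`H(u*) = 0` (this is automatic in Lean: division by zero).

(1) For `u ∈ (0,1)`, `u ≠ u*`: `A'(u) = wfn a b r u`. Indeed
`A'/A = r/u - (1-r)/(1-u) + c/(a - c u)` and
`(r - u)(a - c u) + c u (1-u) = r a (1-u) + (1-r) b u`.
(2) `s'(u)/s(u) = a/u - b/(1-u) = (a - c u)/(u (1-u))`, so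
`A(u) (s^p)'(u) = A(u) p s^p (a - c u)/(u(1-u)) = c p u^(r-1) (1-u)^(-r) s^p`.
Hence `H'(u) = wfn (1 - s^p) - c p u^(r-1) (1-u)^(-r) s^p` for `u ≠ u*`.
(3) `H` is continuous on `[0,1]`: at `u*`, by `one_sub_sfn_le`,
`|H(u)| ≤ c u^r (1-u)^(1-r) p |a - c u| / (c u (1-u)) → 0`; at `0` and `1`:
`|H| ≤ |A(u)| → 0` because `u^r → 0` resp. `(1-u)^(1-r) → 0` and `0 ≤ 1 - s^p ≤ 1`
(`s(0) = s(1) = 0` and `H(0) = H(1) = 0`).
(4) Fundamental theorem of calculus with the countable exceptional set `{u*}`: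
`intervalIntegral.integral_eq_of_hasDerivAt_off_countable_of_le` (name may vary:
`MeasureTheory.integral_eq_of_hasDerivWithinAt_off_countable_of_le`), `∫_0^1 H' = H(1) - H(0) = 0`;
`H'` is integrable by `beta_int`, `beta_int2`. (`intervalIntegral.integral_of_le`,
`MeasureTheory.integral_Ioc_eq_integral_Ioo`.)
-/

set_option autoImplicit false

namespace Pool.Agent.Lib.MP_8382de_an.ALG

open MeasureTheory

/-- the antiderivative -/
private noncomputable def BetC_H (a b r p u : ℝ) : ℝ :=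
  (a + b) * (u ^ r * (1 - u) ^ (1 - r)) / (a - (a + b) * u) * (1 - sfn a b u ^ p)

private theorem BetC_exp1 {r v : ℝ} (hv : v ∈ Set.Ioo (0 : ℝ) 1) :
    v ^ r * (1 - v) ^ (1 - r) = Real.exp (r * Real.log v + (1 - r) * Real.log (1 - v)) := by
  have h1 : 0 < v := hv.1
  have h2 : 0 < 1 - v := by linarith [hv.2]
  rw [Real.rpow_def_of_pos h1, Real.rpow_def_of_pos h2, ← Real.exp_add]
  congr 1
  ring

private theorem BetC_exp2 {r v : ℝ} (hv : v ∈ Set.Ioo (0 : ℝ) 1) :
    Real.exp (r * Real.log v + (1 - r) * Real.log (1 - v)) =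
      v ^ (r - 1) * (1 - v) ^ (-r) * (v * (1 - v)) := by
  have h1 : 0 < v := hv.1
  have h2 : 0 < 1 - v := by linarith [hv.2]
  rw [← BetC_exp1 hv]
  have e1 : v ^ r = v ^ (r - 1) * v := by
    rw [← Real.rpow_add_one h1.ne']
    congr 1
    ring
  have e2 : (1 - v) ^ (1 - r) = (1 - v) ^ (-r) * (1 - v) := by
    rw [← Real.rpow_add_one h2.ne']
    congr 1
    ring
  rw [e1, e2]
  ring

private theorem BetC_exp3 {a b p v : ℝ} (ha : 0 < a) (hb : 0 < b) (hv : v ∈ Set.Ioo (0 : ℝ) 1) :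
    sfn a b v ^ p =
      Real.exp (p * (a * Real.log v + b * Real.log (1 - v) - Real.log (smax a b))) := by
  have h1 : 0 < v := hv.1
  have h2 : 0 < 1 - v := by linarith [hv.2]
  have h3 := smax_pos ha hb
  have h4 : 0 < v ^ a := Real.rpow_pos_of_pos h1 a
  have h5 : 0 < (1 - v) ^ b := Real.rpow_pos_of_pos h2 b
  rw [Real.rpow_def_of_pos (sfn_pos ha hb hv), sfn_eq ha hb hv, Real.log_div (by positivity) h3.ne',
    Real.log_mul h4.ne' h5.ne', Real.log_rpow h1, Real.log_rpow h2]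
  congr 1
  ring

private theorem BetC_deriv {a b r p u : ℝ} (ha : 0 < a) (hb : 0 < b) (hu : u ∈ Set.Ioo (0 : ℝ) 1)
    (hne : a - (a + b) * u ≠ 0) :
    HasDerivAt (BetC_H a b r p) (wfn a b r u * (1 - sfn a b u ^ p) -
      (a + b) * p * (u ^ (r - 1) * (1 - u) ^ (-r)) * sfn a b u ^ p) u := by
  have h1 : 0 < u := hu.1
  have h2 : 0 < 1 - u := by linarith [hu.2]
  have hev : BetC_H a b r p =ᶠ[nhds u] (fun v =>
      (a + b) * Real.exp (r * Real.log v + (1 - r) * Real.log (1 - v)) / (a - (a + b) * v) *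
        (1 - Real.exp (p * (a * Real.log v + b * Real.log (1 - v) - Real.log (smax a b))))) := by
    filter_upwards [Ioo_mem_nhds hu.1 hu.2] with v hv
    unfold BetC_H
    rw [BetC_exp1 hv, BetC_exp3 ha hb hv]
  have dlog : HasDerivAt (fun v : ℝ => Real.log v) (u⁻¹) u := Real.hasDerivAt_log h1.ne'
  have dlog2 : HasDerivAt (fun v : ℝ => Real.log (1 - v)) (-(1 - u)⁻¹) u := by
    have h := ((hasDerivAt_id u).const_sub 1).log (by simpa using h2.ne')
    have e : (fun v : ℝ => Real.log (1 - v)) = fun v => Real.log (1 - id v) := rfl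
    rw [e]
    refine h.congr_deriv ?_
    simp only [id]
    rw [neg_div, one_div]
  have dQ : HasDerivAt (fun v : ℝ => Real.exp (r * Real.log v + (1 - r) * Real.log (1 - v)))
      (Real.exp (r * Real.log u + (1 - r) * Real.log (1 - u)) *
        (r * u⁻¹ + (1 - r) * (-(1 - u)⁻¹))) u :=
    ((dlog.const_mul r).add (dlog2.const_mul (1 - r))).exp
  have dS : HasDerivAt (fun v : ℝ =>
        Real.exp (p * (a * Real.log v + b * Real.log (1 - v) - Real.log (smax a b))))
      (Real.exp (p * (a * Real.log u + b * Real.log (1 - u) - Real.log (smax a b))) *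
        (p * (a * u⁻¹ + b * (-(1 - u)⁻¹)))) u :=
    ((((dlog.const_mul a).add (dlog2.const_mul b)).sub_const _).const_mul p).exp
  have dden : HasDerivAt (fun v : ℝ => a - (a + b) * v) (-(a + b)) u := by
    have h := ((hasDerivAt_id u).const_mul (a + b)).const_sub a
    refine h.congr_deriv ?_
    ring
  have dall := ((dQ.const_mul (a + b)).fun_div dden hne).fun_mul (dS.const_sub 1)
  refine (dall.congr_of_eventuallyEq hev).congr_deriv ?_
  rw [← BetC_exp3 ha hb hu, BetC_exp2 hu]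
  unfold wfn
  have hu' := h1.ne'
  have hu2 := h2.ne'
  field_simp
  ring

private theorem BetC_bd1 {a b r p u : ℝ} (ha : 0 < a) (hb : 0 < b) (hp : 0 < p)
    (hu : u ∈ Set.Ioo (0 : ℝ) 1) :
    ‖BetC_H a b r p u‖ ≤ (a + b) * (u ^ r * (1 - u) ^ (1 - r)) / |a - (a + b) * u| := by
  have h1 : 0 < u := hu.1
  have h2 : 0 < 1 - u := by linarith [hu.2]
  have h3 := one_sub_sfn_nonneg ha hb hu hp.le
  have h4 : sfn a b u ^ p > 0 := Real.rpow_pos_of_pos (sfn_pos ha hb hu) p
  have h5 : 0 ≤ (a + b) * (u ^ r * (1 - u) ^ (1 - r)) := by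
    have := Real.rpow_pos_of_pos h1 r
    have := Real.rpow_pos_of_pos h2 (1 - r)
    positivity
  unfold BetC_H
  rw [norm_mul, norm_div, Real.norm_of_nonneg h5, Real.norm_of_nonneg h3, Real.norm_eq_abs]
  have h6 : 0 ≤ (a + b) * (u ^ r * (1 - u) ^ (1 - r)) / |a - (a + b) * u| :=
    div_nonneg h5 (abs_nonneg _)
  nlinarith

private theorem BetC_bd2 {a b r p u : ℝ} (ha : 0 < a) (hb : 0 < b) (hp : 0 < p)
    (hu : u ∈ Set.Ioo (0 : ℝ) 1) (hne : a - (a + b) * u ≠ 0) :
    ‖BetC_H a b r p u‖ ≤ p * (u ^ (r - 1) * (1 - u) ^ (-r)) * |a - (a + b) * u| := by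
  have h1 : 0 < u := hu.1
  have h2 : 0 < 1 - u := by linarith [hu.2]
  have h3 := one_sub_sfn_nonneg ha hb hu hp.le
  have h3' := one_sub_sfn_le ha hb hu hp.le
  have h5 : 0 ≤ (a + b) * (u ^ r * (1 - u) ^ (1 - r)) := by
    have := Real.rpow_pos_of_pos h1 r
    have := Real.rpow_pos_of_pos h2 (1 - r)
    positivity
  have habs : 0 < |a - (a + b) * u| := abs_pos.2 hne
  unfold BetC_H
  rw [norm_mul, norm_div, Real.norm_of_nonneg h5, Real.norm_of_nonneg h3, Real.norm_eq_abs]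
  have h6 : 0 ≤ (a + b) * (u ^ r * (1 - u) ^ (1 - r)) / |a - (a + b) * u| :=
    div_nonneg h5 (abs_nonneg _)
  refine (mul_le_mul_of_nonneg_left h3' h6).trans (le_of_eq ?_)
  rw [BetC_exp1 hu, BetC_exp2 hu, ← sq_abs (a - (a + b) * u)]
  have hab : a + b ≠ 0 := by positivity
  have := h1.ne'
  have := h2.ne'
  have := habs.ne'
  field_simp

private theorem BetC_lim0 {a b r p : ℝ} (ha : 0 < a) (hb : 0 < b) (hr0 : 0 < r)
    (hp : 0 < p) : Filter.Tendsto (BetC_H a b r p) (nhdsWithin 0 (Set.Ioi 0)) (nhds 0) := by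
  have hc : Filter.Tendsto (fun u : ℝ =>
      (a + b) * (u ^ r * (1 - u) ^ (1 - r)) / |a - (a + b) * u|) (nhdsWithin 0 (Set.Ioi 0))
      (nhds 0) := by
    have h1 : ContinuousAt (fun u : ℝ =>
      (a + b) * (u ^ r * (1 - u) ^ (1 - r)) / |a - (a + b) * u|) 0 := by
      refine ContinuousAt.div ?_ (by fun_prop) (by simpa using ha.ne')
      refine continuousAt_const.mul (ContinuousAt.mul ?_ ?_)
      · exact Real.continuousAt_rpow_const 0 r (Or.inr hr0.le)
      · exact ContinuousAt.rpow_const (by fun_prop) (Or.inl (by norm_num))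
    have h2 := h1.tendsto
    simp only [Real.zero_rpow hr0.ne', zero_mul, mul_zero, zero_div] at h2
    exact h2.mono_left nhdsWithin_le_nhds
  refine squeeze_zero_norm' ?_ hc
  filter_upwards [Ioo_mem_nhdsGT (show (0 : ℝ) < 1 by norm_num)] with u hu
  exact BetC_bd1 ha hb hp hu

private theorem BetC_lim1 {a b r p : ℝ} (ha : 0 < a) (hb : 0 < b) (hr1 : r < 1)
    (hp : 0 < p) : Filter.Tendsto (BetC_H a b r p) (nhdsWithin 1 (Set.Iio 1)) (nhds 0) := by
  have hc : Filter.Tendsto (fun u : ℝ =>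
      (a + b) * (u ^ r * (1 - u) ^ (1 - r)) / |a - (a + b) * u|) (nhdsWithin 1 (Set.Iio 1))
      (nhds 0) := by
    have h1 : ContinuousAt (fun u : ℝ =>
      (a + b) * (u ^ r * (1 - u) ^ (1 - r)) / |a - (a + b) * u|) 1 := by
      refine ContinuousAt.div ?_ (by fun_prop) ?_
      · refine continuousAt_const.mul (ContinuousAt.mul ?_ ?_)
        · exact Real.continuousAt_rpow_const 1 r (Or.inl one_ne_zero)
        · exact ContinuousAt.rpow_const (by fun_prop) (Or.inr (by linarith))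
      · rw [mul_one, show a - (a + b) = -b by ring, abs_neg]
        exact (abs_pos.2 hb.ne').ne'
    have h2 := h1.tendsto
    simp only [sub_self, Real.zero_rpow (show (1 - r) ≠ 0 by linarith), mul_zero, zero_div] at h2
    exact h2.mono_left nhdsWithin_le_nhds
  refine squeeze_zero_norm' ?_ hc
  filter_upwards [Ioo_mem_nhdsLT (show (0 : ℝ) < 1 by norm_num)] with u hu
  exact BetC_bd1 ha hb hp hu

private theorem BetC_mid {a b r p : ℝ} (ha : 0 < a) (hb : 0 < b)
    (hp : 0 < p) : Filter.Tendsto (BetC_H a b r p) (nhdsWithin (ust a b) {ust a b}ᶜ) (nhds 0) := by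
  obtain ⟨g0, g1⟩ := ust_mem ha hb
  have hcu : a - (a + b) * ust a b = 0 := by
    unfold ust
    field_simp
    ring
  have hc : Filter.Tendsto (fun u : ℝ =>
      p * (u ^ (r - 1) * (1 - u) ^ (-r)) * |a - (a + b) * u|) (nhdsWithin (ust a b) {ust a b}ᶜ)
      (nhds 0) := by
    have h1 : ContinuousAt (fun u : ℝ =>
      p * (u ^ (r - 1) * (1 - u) ^ (-r)) * |a - (a + b) * u|) (ust a b) := by
      refine ContinuousAt.mul ?_ (by fun_prop)
      refine continuousAt_const.mul (ContinuousAt.mul ?_ ?_)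
      · exact Real.continuousAt_rpow_const _ _ (Or.inl g0.ne')
      · exact ContinuousAt.rpow_const (by fun_prop) (Or.inl (by linarith))
    have h2 := h1.tendsto
    simp only [hcu, abs_zero, mul_zero] at h2
    exact h2.mono_left nhdsWithin_le_nhds
  refine squeeze_zero_norm' ?_ hc
  filter_upwards [self_mem_nhdsWithin, nhdsWithin_le_nhds (Ioo_mem_nhds g0 g1)] with u hu1 hu2
  refine BetC_bd2 ha hb hp hu2 ?_
  intro h
  apply hu1
  rw [Set.mem_singleton_iff]
  have h3 : (a + b) * u = (a + b) * ust a b := by linarith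
  exact mul_left_cancel₀ (by positivity) h3

theorem beta_ftc {a b r p : ℝ} (ha : 0 < a) (hb : 0 < b) (hr0 : 0 < r) (hr1 : r < 1)
    (hp : 0 < p) :
    ∫ u in Set.Ioo (0 : ℝ) 1, wfn a b r u * (1 - sfn a b u ^ p) =
      ∫ u in Set.Ioo (0 : ℝ) 1,
        (a + b) * p * (u ^ (r - 1) * (1 - u) ^ (-r)) * sfn a b u ^ p := by
  obtain ⟨g0, g1⟩ := ust_mem ha hb
  have i1 := beta_int ha hb hr0 hr1 hp
  have i2 := beta_int2 ha hb hr0 hr1 hp
  have hne : ∀ u, u ≠ ust a b → a - (a + b) * u ≠ 0 := by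
    intro u hu h
    apply hu
    have hcu : a - (a + b) * ust a b = 0 := by
      unfold ust
      field_simp
      ring
    have h3 : (a + b) * u = (a + b) * ust a b := by linarith
    exact mul_left_cancel₀ (by positivity) h3
  have i3 : IntervalIntegrable (fun u => wfn a b r u * (1 - sfn a b u ^ p) -
      (a + b) * p * (u ^ (r - 1) * (1 - u) ^ (-r)) * sfn a b u ^ p) volume 0 1 := by
    rw [intervalIntegrable_iff_integrableOn_Ioo_of_le zero_le_one]
    exact i1.sub i2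
  have j1 := intervalIntegral.integral_eq_sub_of_hasDerivAt_of_tendsto g0
    (f := BetC_H a b r p) (f' := fun u => wfn a b r u * (1 - sfn a b u ^ p) -
      (a + b) * p * (u ^ (r - 1) * (1 - u) ^ (-r)) * sfn a b u ^ p)
    (fun x hx => BetC_deriv ha hb ⟨hx.1, hx.2.trans g1⟩ (hne x hx.2.ne))
    (i3.mono_set (by
      rw [Set.uIcc_of_le g0.le, Set.uIcc_of_le zero_le_one]
      exact Set.Icc_subset_Icc le_rfl g1.le))
    (BetC_lim0 ha hb hr0 hp)
    ((BetC_mid ha hb hp).mono_left (nhdsWithin_mono _ (fun x hx => ne_of_lt hx)))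
  have j2 := intervalIntegral.integral_eq_sub_of_hasDerivAt_of_tendsto g1
    (f := BetC_H a b r p) (f' := fun u => wfn a b r u * (1 - sfn a b u ^ p) -
      (a + b) * p * (u ^ (r - 1) * (1 - u) ^ (-r)) * sfn a b u ^ p)
    (fun x hx => BetC_deriv ha hb ⟨g0.trans hx.1, hx.2⟩ (hne x hx.1.ne'))
    (i3.mono_set (by
      rw [Set.uIcc_of_le g1.le, Set.uIcc_of_le zero_le_one]
      exact Set.Icc_subset_Icc g0.le le_rfl))
    ((BetC_mid ha hb hp).mono_left (nhdsWithin_mono _ (fun x hx => ne_of_gt hx)))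
    (BetC_lim1 ha hb hr1 hp)
  have j3 := intervalIntegral.integral_add_adjacent_intervals (a := (0 : ℝ)) (b := ust a b) (c := 1)
    (μ := volume) (f := fun u => wfn a b r u * (1 - sfn a b u ^ p) -
      (a + b) * p * (u ^ (r - 1) * (1 - u) ^ (-r)) * sfn a b u ^ p)
    (i3.mono_set (by
      rw [Set.uIcc_of_le g0.le, Set.uIcc_of_le zero_le_one]
      exact Set.Icc_subset_Icc le_rfl g1.le))
    (i3.mono_set (by
      rw [Set.uIcc_of_le g1.le, Set.uIcc_of_le zero_le_one]
      exact Set.Icc_subset_Icc g0.le le_rfl))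
  rw [j1, j2, intervalIntegral.integral_of_le zero_le_one,
    MeasureTheory.integral_Ioc_eq_integral_Ioo, integral_sub i1 i2] at j3
  linarith

end Pool.Agent.Lib.MP_8382de_an.ALG
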