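import Pool.Agent.Lib.MP_8382de_an.ALG.BetA

/-!
# ALG.BetD: evaluation of the Beta integral

`s(u)^p = u^(a p) (1-u)^(b p) smax^(-p)` (`sfn_eq`, `Real.mul_rpow`, `Real.rpow_mul`), so the
integrand is `(a+b) p smax^(-p) u^(a p + r - 1) (1-u)^(b p + (1-r) - 1)` on `(0,1)` and
`∫ u^(x-1) (1-u)^(y-1) = Γ(x) Γ(y)/Γ(x+y)` with `x = a p + r`, `y = b p + 1 - r`,
`x + y = (a+b) p + 1`, `Γ((a+b)p + 1) = (a+b) p Γ((a+b) p)` (`Real.Gamma_add_one`).
For the real Beta integral: Mathlib has `Complex.betaIntegral`,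
`Complex.Gamma_mul_Gamma_eq_betaIntegral`; take real parts (cast the real integrand to `ℂ`,
`Complex.ofReal_cpow`). Possibly `Real.beta...` exists (`ProbabilityTheory` Beta distribution:
`ProbabilityTheory.beta`, `Mathlib/Probability/Distributions/Beta.lean`).
-/

set_option autoImplicit false

namespace Pool.Agent.Lib.MP_8382de_an.ALG

open MeasureTheory

theorem real_beta {x y : ℝ} (hx : 0 < x) (hy : 0 < y) :
    ∫ u in Set.Ioo (0 : ℝ) 1, u ^ (x - 1) * (1 - u) ^ (y - 1) =
      Real.Gamma x * Real.Gamma y / Real.Gamma (x + y) := by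
  have h1 : ((∫ u in Set.Ioo (0 : ℝ) 1, u ^ (x - 1) * (1 - u) ^ (y - 1) : ℝ) : ℂ) =
      Complex.betaIntegral x y := by
    rw [Complex.betaIntegral, intervalIntegral.integral_of_le zero_le_one,
      integral_Ioc_eq_integral_Ioo, ← integral_complex_ofReal]
    refine setIntegral_congr_fun measurableSet_Ioo (fun u hu => ?_)
    have h0 : (0 : ℝ) ≤ u := hu.1.le
    have h2 : (0 : ℝ) ≤ 1 - u := by linarith [hu.2]
    rw [Complex.ofReal_mul, Complex.ofReal_cpow h0, Complex.ofReal_cpow h2]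
    push_cast
    rfl
  have h3 : (x : ℂ).re = x := Complex.ofReal_re x
  have h4 := Complex.Gamma_mul_Gamma_eq_betaIntegral (s := (x : ℂ)) (t := (y : ℂ))
    (by rw [Complex.ofReal_re]; exact hx) (by rw [Complex.ofReal_re]; exact hy)
  rw [← h1, ← Complex.ofReal_add, Complex.Gamma_ofReal, Complex.Gamma_ofReal,
    Complex.Gamma_ofReal] at h4
  have h5 : Real.Gamma x * Real.Gamma y = Real.Gamma (x + y) *
      ∫ u in Set.Ioo (0 : ℝ) 1, u ^ (x - 1) * (1 - u) ^ (y - 1) := by
    exact_mod_cast h4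
  have h6 : Real.Gamma (x + y) ≠ 0 := (Real.Gamma_pos_of_pos (by linarith)).ne'
  rw [h5]
  field_simp

theorem beta_eval {a b r p : ℝ} (ha : 0 < a) (hb : 0 < b) (hr0 : 0 < r) (hr1 : r < 1)
    (hp : 0 < p) :
    ∫ u in Set.Ioo (0 : ℝ) 1,
        (a + b) * p * (u ^ (r - 1) * (1 - u) ^ (-r)) * sfn a b u ^ p =
      smax a b ^ (-p) * (Real.Gamma (a * p + r) * Real.Gamma (b * p + (1 - r)) /
        Real.Gamma ((a + b) * p)) := by
  have hap : 0 < a * p := mul_pos ha hp
  have hbp : 0 < b * p := mul_pos hb hp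
  have hsm : 0 < smax a b := smax_pos ha hb
  have hB := real_beta (x := a * p + r) (y := b * p + (1 - r)) (by linarith) (by linarith)
  have hcongr : ∀ u ∈ Set.Ioo (0 : ℝ) 1,
      (a + b) * p * (u ^ (r - 1) * (1 - u) ^ (-r)) * sfn a b u ^ p =
      ((a + b) * p * smax a b ^ (-p)) *
        (u ^ (a * p + r - 1) * (1 - u) ^ (b * p + (1 - r) - 1)) := by
    intro u hu
    have hu0 : 0 < u := hu.1
    have hu1 : 0 < 1 - u := by linarith [hu.2]
    rw [sfn_eq ha hb hu, Real.div_rpow (by positivity) hsm.le,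
      Real.mul_rpow (by positivity) (by positivity), ← Real.rpow_mul hu0.le,
      ← Real.rpow_mul hu1.le, Real.rpow_neg hsm.le p]
    have e1 : u ^ (a * p + r - 1) = u ^ (r - 1) * u ^ (a * p) := by
      rw [← Real.rpow_add hu0]
      congr 1
      ring
    have e2 : (1 - u) ^ (b * p + (1 - r) - 1) = (1 - u) ^ (-r) * (1 - u) ^ (b * p) := by
      rw [← Real.rpow_add hu1]
      congr 1
      ring
    rw [e1, e2]
    have : smax a b ^ p ≠ 0 := (Real.rpow_pos_of_pos hsm p).ne'
    field_simp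
  rw [setIntegral_congr_fun measurableSet_Ioo hcongr, integral_const_mul, hB]
  have hsum : a * p + r + (b * p + (1 - r)) = (a + b) * p + 1 := by ring
  have hpos : 0 < (a + b) * p := by positivity
  rw [hsum, Real.Gamma_add_one hpos.ne']
  have hG : Real.Gamma ((a + b) * p) ≠ 0 := (Real.Gamma_pos_of_pos hpos).ne'
  have hab : a + b ≠ 0 := by positivity
  field_simp

end Pool.Agent.Lib.MP_8382de_an.ALG
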