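import Pool.Agent.Lib.MP_8382de_an.ALG.Defs

/-!
# ALG.Clo: closure properties of the class `T`

* `T_of_eventually`: shift the sequence (`p (n + n₀)`), `Tendsto.comp` with `tendsto_add_atTop_nat`.
* `T_lim_ev`: let `h : ∀ᶠ n, T (φ n)`. Shift so that it holds for all `n`. For each `n` choose, from
  the sequence of polynomials of `T (φ n)`, one polynomial `q n` with `Neg (q n)` and
  `|(q n).coeff k - φ n k| < 1/(n+1)` for all `k ≤ n` (finitely many `k`: `Filter.eventually_all_finset`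
  or `Finset` induction, then `.exists`). Then for fixed `k` and `n ≥ k`,
  `|(q n).coeff k - ψ k| ≤ 1/(n+1) + |φ n k - ψ k| → 0`.
* `T_scale`: use `C c * p.comp (C r * X)` (or `Polynomial.scaleRoots`-free: the polynomial with
  coefficients `c r^k p_k`). Its value at `z` is `c p(r z)`, so its zeros are the zeros of `p`
  divided by `r > 0`; `coeff 0 = c p_0 > 0`. Coefficients: `coeff_C_mul`, `comp_C_mul_X_coeff`.
* `T_congr`: rewrite with `funext`.
-/

set_option autoImplicit false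

namespace Pool.Agent.Lib.MP_8382de_an.ALG

open Polynomial Filter Topology

theorem T_congr {φ ψ : ℕ → ℝ} (h : T φ) (he : ∀ k, φ k = ψ k) : T ψ := by
  have : φ = ψ := funext he
  rw [← this]
  exact h

theorem T_of_eventually {φ : ℕ → ℝ} {p : ℕ → Polynomial ℝ} (h : ∀ᶠ n in atTop, Neg (p n))
    (hc : ∀ k, Tendsto (fun n => (p n).coeff k) atTop (𝓝 (φ k))) : T φ := by
  obtain ⟨n0, hn0⟩ := eventually_atTop.1 h
  refine ⟨fun n => p (n + n0), fun n => hn0 _ (by omega), fun k => ?_⟩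
  exact (hc k).comp (tendsto_add_atTop_nat n0)

theorem T_lim_ev {φ : ℕ → ℕ → ℝ} {ψ : ℕ → ℝ} (h : ∀ᶠ n in atTop, T (φ n))
    (hc : ∀ k, Tendsto (fun n => φ n k) atTop (𝓝 (ψ k))) : T ψ := by
  obtain ⟨n0, hn0⟩ := eventually_atTop.1 h
  have key : ∀ n : ℕ, ∃ q : Polynomial ℝ, Neg q ∧
      ∀ k ∈ Finset.range (n + 1), |q.coeff k - φ (n + n0) k| < 1 / ((n : ℝ) + 1) := by
    intro n
    obtain ⟨p, hp, hpc⟩ := hn0 (n + n0) (by omega)
    have hpos : (0 : ℝ) < 1 / ((n : ℝ) + 1) := by positivity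
    have h1 : ∀ᶠ j in atTop, ∀ k ∈ Finset.range (n + 1),
        |(p j).coeff k - φ (n + n0) k| < 1 / ((n : ℝ) + 1) := by
      rw [Filter.eventually_all_finset]
      intro k _
      have h2 := Metric.tendsto_nhds.1 (hpc k) _ hpos
      filter_upwards [h2] with j hj
      rwa [Real.dist_eq] at hj
    obtain ⟨j, hj⟩ := h1.exists
    exact ⟨p j, hp j, hj⟩
  choose q hq hqc using key
  refine ⟨q, hq, fun k => ?_⟩
  have h1 : Tendsto (fun n => φ (n + n0) k) atTop (𝓝 (ψ k)) :=
    (hc k).comp (tendsto_add_atTop_nat n0)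
  have h2 : Tendsto (fun n => (q n).coeff k - φ (n + n0) k) atTop (𝓝 0) := by
    refine squeeze_zero_norm' ?_ tendsto_one_div_add_atTop_nhds_zero_nat
    filter_upwards [eventually_ge_atTop k] with n hn
    rw [Real.norm_eq_abs]
    exact (hqc n k (Finset.mem_range.2 (by omega))).le
  have h3 := h2.add h1
  simp only [sub_add_cancel, zero_add] at h3
  exact h3

theorem Neg.scale {p : Polynomial ℝ} (hp : Neg p) {c r : ℝ} (hc : 0 < c) (hr : 0 < r) :
    Neg (C c * p.comp (C r * X)) := by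
  refine ⟨?_, ?_⟩
  · rw [coeff_C_mul, comp_C_mul_X_coeff, pow_zero, mul_one]
    exact mul_pos hc hp.1
  · intro z hz
    rw [map_mul, aeval_C, aeval_comp, map_mul, aeval_C, aeval_X] at hz
    have hc0 : (algebraMap ℝ ℂ) c ≠ 0 := by
      rw [Complex.coe_algebraMap]
      exact Complex.ofReal_ne_zero.2 hc.ne'
    have h1 := (mul_eq_zero.1 hz).resolve_left hc0
    obtain ⟨h2, h3⟩ := hp.2 _ h1
    rw [Complex.coe_algebraMap] at h2 h3
    rw [Complex.im_ofReal_mul] at h2
    rw [Complex.re_ofReal_mul] at h3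
    refine ⟨(mul_eq_zero.1 h2).resolve_left hr.ne', ?_⟩
    by_contra h4
    push Not at h4
    have := mul_nonneg hr.le h4
    linarith

theorem T_scale {φ : ℕ → ℝ} (h : T φ) {c r : ℝ} (hc : 0 < c) (hr : 0 < r) :
    T (fun k => c * r ^ k * φ k) := by
  obtain ⟨p, hp, hpc⟩ := h
  refine ⟨fun n => C c * (p n).comp (C r * X), fun n => (hp n).scale hc hr, fun k => ?_⟩
  have e : (fun n => (C c * (p n).comp (C r * X)).coeff k) =
      fun n => c * r ^ k * (p n).coeff k := by
    funext n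
    rw [coeff_C_mul, comp_C_mul_X_coeff]
    ring
  rw [e]
  exact (hpc k).const_mul _

end Pool.Agent.Lib.MP_8382de_an.ALG
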