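import Pool.Agent.Lib.MP_8382de_an.ALG.Defs

/-!
# ALG.Sec: even and odd sections of Hurwitz polynomials (Hermite, Biehler)

`aeval_sec`: `P(t) = E(t²) + t O(t²)` where `E = secE P`, `O = secO P` (compare coefficients or sum
over even and odd exponents; `Polynomial.ext` with `expand`: `P = expand ℝ 2 E + X * expand ℝ 2 O`,
`coeff_expand`, then `aeval` and `expand_aeval`).

`Hur.lt`: if `Hur P`, `Re t > 0` and `P` is not constant, then `‖P(-t)‖ < ‖P(t)‖`. Proof: over `ℂ`,
`P = a ∏ (X - r_j)` with `Re r_j < 0` (`IsAlgClosed.splits`, roots multiset `R`, `a ≠ 0`).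
`‖P(-t)‖ = ‖P(-conj t)‖` (real coefficients: `P(conj z) = conj P(z)`) `= ‖a‖ ∏ ‖-conj t - r_j‖
= ‖a‖ ∏ ‖conj t + r_j‖` and `‖conj t + r‖ < ‖t - r‖` since
`‖t - r‖² - ‖conj t + r‖² = -4 Re r Re t > 0`. `R` is nonempty, all factors positive
(`Multiset.prod_lt_prod'`-like lemma, or induction).
For constant `P` we only get equality, but then `P(t) = P(-t) = P(0) > 0`.

`Neg_secE`: constant term `P.coeff 0 > 0`. Let `E(w) = 0`. `w ≠ 0` as `E(0) > 0`. If `w` is not a
negative real, choose `t` with `t² = w`, `Re t > 0` (principal square root, `Complex.cpow` or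
`IsAlgClosed`: `t² = w` has a solution; `Re t = 0` would make `w` a real `≤ 0`; replace `t` by `-t`
if needed). Then `P(t) + P(-t) = 2 E(w) = 0`, so `‖P(-t)‖ = ‖P(t)‖`: contradiction with `Hur.lt` if
`P` is not constant, and with `P(t) = P(-t) > 0` if it is.
`Neg_secO`: the same with `P(t) - P(-t) = 2 t O(w) = 0`; `P` is not constant as `P.coeff 1 > 0`;
constant term of `O` is `P.coeff 1 > 0`.
-/

set_option autoImplicit false

namespace Pool.Agent.Lib.MP_8382de_an.ALG

open Polynomial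

theorem aeval_sec (P : Polynomial ℝ) (t : ℂ) :
    aeval t P = aeval (t ^ 2) (secE P) + t * aeval (t ^ 2) (secO P) := by
  have h : P = expand ℝ 2 (secE P) + X * expand ℝ 2 (secO P) := by
    ext n
    rw [coeff_add, coeff_expand (by norm_num)]
    rcases Nat.eq_zero_or_pos n with h0 | h0
    · subst h0
      rw [mul_coeff_zero, coeff_X_zero, zero_mul, add_zero, if_pos (dvd_zero 2), coeff_secE]
    · obtain ⟨m, rfl⟩ : ∃ m, n = m + 1 := ⟨n - 1, by omega⟩
      rw [coeff_X_mul, coeff_expand (by norm_num)]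
      rcases Nat.even_or_odd m with he | ho
      · have hd : ¬ 2 ∣ m + 1 := by
          obtain ⟨r, hr⟩ := he
          omega
        have hd2 : 2 ∣ m := he.two_dvd
        rw [if_neg hd, if_pos hd2, zero_add, coeff_secO]
        congr 1
        omega
      · obtain ⟨r, hr⟩ := ho
        have hd : 2 ∣ m + 1 := by omega
        have hd2 : ¬ 2 ∣ m := by omega
        rw [if_pos hd, if_neg hd2, add_zero, coeff_secE]
        congr 1
        omega
  have h2 : aeval t P = aeval t (expand ℝ 2 (secE P) + X * expand ℝ 2 (secO P)) := by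
    rw [← h]
  rw [h2, map_add, map_mul, aeval_X, expand_aeval, expand_aeval]

private theorem sec_factor {t r : ℂ} (ht : 0 < t.re) (hr : r.re < 0) :
    ‖-(starRingEnd ℂ) t - r‖ < ‖t - r‖ := by
  have h1 : ‖-(starRingEnd ℂ) t - r‖ ^ 2 < ‖t - r‖ ^ 2 := by
    rw [← Complex.normSq_eq_norm_sq, ← Complex.normSq_eq_norm_sq, Complex.normSq_apply,
      Complex.normSq_apply]
    simp only [Complex.sub_re, Complex.sub_im, Complex.neg_re, Complex.neg_im, Complex.conj_re,
      Complex.conj_im]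
    nlinarith [mul_pos ht (neg_pos.2 hr)]
  exact lt_of_pow_lt_pow_left₀ 2 (norm_nonneg _) h1

private theorem sec_prod {t : ℂ} (ht : 0 < t.re) (R : Multiset ℂ) (hR : ∀ r ∈ R, r.re < 0) :
    ‖(R.map fun r => -(starRingEnd ℂ) t - r).prod‖ ≤ ‖(R.map fun r => t - r).prod‖ ∧
      0 < ‖(R.map fun r => t - r).prod‖ ∧
      (R ≠ 0 → ‖(R.map fun r => -(starRingEnd ℂ) t - r).prod‖ < ‖(R.map fun r => t - r).prod‖) := by
  induction R using Multiset.induction_on with
  | empty => simp
  | cons a R ih =>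
    obtain ⟨h1, h2, _⟩ := ih fun r hr => hR r (Multiset.mem_cons_of_mem hr)
    have h3 := sec_factor ht (hR a (Multiset.mem_cons_self a R))
    rw [Multiset.map_cons, Multiset.map_cons, Multiset.prod_cons, Multiset.prod_cons, norm_mul,
      norm_mul]
    have h4 : 0 < ‖t - a‖ := lt_of_le_of_lt (norm_nonneg _) h3
    have h5 : ‖-(starRingEnd ℂ) t - a‖ * ‖(R.map fun r => -(starRingEnd ℂ) t - r).prod‖ <
        ‖t - a‖ * ‖(R.map fun r => t - r).prod‖ :=
      lt_of_le_of_lt (mul_le_mul_of_nonneg_left h1 (norm_nonneg _))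
        (mul_lt_mul_of_pos_right h3 h2)
    exact ⟨h5.le, mul_pos h4 h2, fun _ => h5⟩

theorem Hur.lt {P : Polynomial ℝ} (hP : Hur P) (hd : 0 < P.natDegree) {t : ℂ} (ht : 0 < t.re) :
    ‖aeval (-t) P‖ < ‖aeval t P‖ := by
  obtain ⟨Q, hQ⟩ : ∃ Q : Polynomial ℂ, Q = P.map (algebraMap ℝ ℂ) := ⟨_, rfl⟩
  have hev : ∀ z : ℂ, aeval z P = Q.eval z := by
    intro z
    rw [hQ, eval_map_algebraMap]
  have hdeg : Q.natDegree = P.natDegree := by
    rw [hQ, natDegree_map]
  have hQ0 : Q ≠ 0 := by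
    intro h
    rw [h, natDegree_zero] at hdeg
    omega
  have hsp := IsAlgClosed.splits Q
  have hprod : ∀ z : ℂ, Q.eval z = Q.leadingCoeff * (Q.roots.map fun r => z - r).prod := by
    intro z
    have h1 := hsp.eq_prod_roots
    have h2 : Q.eval z = (C Q.leadingCoeff * (Q.roots.map fun a => X - C a).prod).eval z := by
      rw [← h1]
    rw [h2, eval_mul, eval_C, eval_multiset_prod, Multiset.map_map]
    congr 2
    refine Multiset.map_congr rfl ?_
    intro a _
    simp
  have hroots : ∀ r ∈ Q.roots, r.re < 0 := by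
    intro r hr
    refine hP.2 r ?_
    rw [hev]
    exact (mem_roots hQ0).1 hr
  have hne : Q.roots ≠ 0 := by
    intro h
    have h1 := hsp.natDegree_eq_card_roots
    rw [h, Multiset.card_zero] at h1
    omega
  have hconj : ‖aeval (-t) P‖ = ‖aeval (-(starRingEnd ℂ) t) P‖ := by
    have h1 := Polynomial.aeval_conj P (-t)
    rw [map_neg] at h1
    rw [h1]
    exact (RCLike.norm_conj _).symm
  rw [hconj, hev, hev, hprod, hprod, norm_mul, norm_mul]
  exact mul_lt_mul_of_pos_left ((sec_prod ht Q.roots hroots).2.2 hne)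
    (norm_pos_iff.2 (leadingCoeff_ne_zero.2 hQ0))

private theorem sec_sqrt {w : ℂ} (hw : ¬ (w.im = 0 ∧ w.re < 0)) (h0 : w ≠ 0) :
    ∃ t : ℂ, t ^ 2 = w ∧ 0 < t.re := by
  obtain ⟨t, ht⟩ := IsAlgClosed.exists_pow_nat_eq w (n := 2) (by norm_num)
  have hre : t.re ≠ 0 := by
    intro h
    apply hw
    have e1 : w.re = t.re * t.re - t.im * t.im := by rw [← ht, sq, Complex.mul_re]
    have e2 : w.im = t.re * t.im + t.im * t.re := by rw [← ht, sq, Complex.mul_im]
    rw [h] at e1 e2
    have him : t.im ≠ 0 := by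
      intro h'
      apply h0
      rw [← ht, Complex.ext_iff.2 (show t.re = (0 : ℂ).re ∧ t.im = (0 : ℂ).im from ⟨h, h'⟩)]
      norm_num
    refine ⟨by rw [e2]; ring, ?_⟩
    rw [e1]
    have := mul_self_pos.2 him
    linarith
  rcases lt_or_gt_of_ne hre with h | h
  · exact ⟨-t, by rw [neg_sq]; exact ht, by rw [Complex.neg_re]; linarith⟩
  · exact ⟨t, ht, h⟩

theorem Neg_secE {P : Polynomial ℝ} (hP : Hur P) : Neg (secE P) := by
  refine ⟨by rw [coeff_secE]; exact hP.1, ?_⟩
  intro w hw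
  by_contra hcon
  have h0 : w ≠ 0 := by
    rintro rfl
    rw [aeval_def, eval₂_at_zero, coeff_secE, mul_zero] at hw
    have h1 : P.coeff 0 = 0 := by
      have : ((P.coeff 0 : ℝ) : ℂ) = 0 := hw
      exact_mod_cast this
    exact absurd hP.1 (by rw [h1]; exact lt_irrefl 0)
  obtain ⟨t, ht, htr⟩ := sec_sqrt hcon h0
  have h1 := aeval_sec P t
  have h2 := aeval_sec P (-t)
  rw [neg_sq] at h2
  rw [ht, hw, zero_add] at h1 h2
  have h3 : ‖aeval (-t) P‖ = ‖aeval t P‖ := by
    rw [h1, h2, neg_mul, norm_neg]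
  rcases Nat.eq_zero_or_pos P.natDegree with hd | hd
  · have hc := eq_C_of_natDegree_eq_zero hd
    have h4 : aeval t P = aeval (-t) P := by
      rw [hc, aeval_C, aeval_C]
    rw [h1, h2] at h4
    have h5 : aeval t P = 0 := by
      rw [h1]
      linear_combination (1 / 2 : ℂ) * h4
    have := hP.2 t h5
    linarith
  · exact absurd h3 (hP.lt hd htr).ne

theorem Neg_secO {P : Polynomial ℝ} (hP : Hur P) (h1 : 0 < P.coeff 1) : Neg (secO P) := by
  refine ⟨by rw [coeff_secO]; exact h1, ?_⟩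
  intro w hw
  by_contra hcon
  have h0 : w ≠ 0 := by
    rintro rfl
    rw [aeval_def, eval₂_at_zero, coeff_secO, mul_zero, zero_add] at hw
    have h2 : P.coeff 1 = 0 := by
      have : ((P.coeff 1 : ℝ) : ℂ) = 0 := hw
      exact_mod_cast this
    exact absurd h1 (by rw [h2]; exact lt_irrefl 0)
  obtain ⟨t, ht, htr⟩ := sec_sqrt hcon h0
  have h2 := aeval_sec P t
  have h3 := aeval_sec P (-t)
  rw [neg_sq] at h3
  rw [ht, hw, mul_zero, add_zero] at h2 h3
  have h4 : ‖aeval (-t) P‖ = ‖aeval t P‖ := by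
    rw [h2, h3]
  have hd : 0 < P.natDegree := by
    rcases Nat.eq_zero_or_pos P.natDegree with hd | hd
    · exfalso
      have h5 : P.coeff 1 = 0 := coeff_eq_zero_of_natDegree_lt (by omega)
      linarith
    · exact hd
  exact absurd h4 (hP.lt hd htr).ne

end Pool.Agent.Lib.MP_8382de_an.ALG
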