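import Pool.Agent.Lib.MP_8382de_an.ALG.HurP
import Pool.Agent.Lib.MP_8382de_an.ALG.Sec
import Pool.Agent.Lib.MP_8382de_an.ALG.Clo

/-!
# ALG.Stp: one step of the class `T`

`T φ` with polynomials `p_n`. `P_n = mulc N p_n` is `Hur` (`Hur_mulc`), `secE P_n` is `Neg`
(`Neg_secE`), its `k`-th coefficient is `N (2k) p_n.coeff (2k) → N (2k) φ (2k)` (`coeff_secE`,
`coeff_mulc`). For the odd section: `(P_n).coeff 1 = N 1 p_n.coeff 1 > 0` for large `n` because
`φ 1 > 0` and `N 1 > 0` (`Rep.pos`); `Neg_secO`, `T_of_eventually`.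
-/

set_option autoImplicit false

namespace Pool.Agent.Lib.MP_8382de_an.ALG

open Polynomial Filter Topology

theorem T_even {φ N : ℕ → ℝ} (h : T φ) (hN : Rep N) :
    T (fun k => N (2 * k) * φ (2 * k)) := by
  obtain ⟨p, hp, hc⟩ := h
  refine ⟨fun n => secE (mulc N (p n)), fun n => Neg_secE (Hur_mulc hN (hp n)), fun k => ?_⟩
  have e : (fun n => (secE (mulc N (p n))).coeff k) =
      fun n => N (2 * k) * (p n).coeff (2 * k) := by
    funext n
    rw [coeff_secE, coeff_mulc]
  rw [e]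
  exact (hc (2 * k)).const_mul _

theorem T_odd {φ N : ℕ → ℝ} (h : T φ) (h1 : 0 < φ 1) (hN : Rep N) :
    T (fun k => N (2 * k + 1) * φ (2 * k + 1)) := by
  obtain ⟨p, hp, hc⟩ := h
  refine T_of_eventually (p := fun n => secO (mulc N (p n))) ?_ ?_
  · have h2 : ∀ᶠ n in atTop, 0 < (p n).coeff 1 := (hc 1).eventually_const_lt h1
    refine h2.mono fun n hn => Neg_secO (Hur_mulc hN (hp n)) ?_
    rw [coeff_mulc]
    exact mul_pos (hN.pos 1) hn
  · intro k
    have e : (fun n => (secO (mulc N (p n))).coeff k) =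
        fun n => N (2 * k + 1) * (p n).coeff (2 * k + 1) := by
      funext n
      rw [coeff_secO, coeff_mulc]
    rw [e]
    exact (hc (2 * k + 1)).const_mul _

end Pool.Agent.Lib.MP_8382de_an.ALG
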