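import Pool.Agent.Lib.MP_8382de_an.ALG.BetC
import Pool.Agent.Lib.MP_8382de_an.ALG.BetD
import Pool.Agent.Lib.MP_8382de_an.ALG.Stp

/-!
# ALG.BetR: the Beta type multiplier

`Rep_beta`: data `w = wfn a b r`, `s = sfn a b`, the given `θ > 0`; for `p = m + θ > 0` use
`beta_int`, `beta_ftc`, `beta_eval`; `N 0 > 0` since all Gamma values and `smax^(-θ)` are positive.

`step_even`, `step_odd`. Put `c = a + b`, `θ = (α+β-1)/c > 0`, `r = α - a θ`. Then
`r > 0 ⟺ c α > a (α+β-1) ⟺ b α > a (β-1)` (hypothesis `hc1`) and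
`1 - r > 0 ⟺ (1-α) c + a (α+β-1) > 0 ⟺ (1-α) b + a β > 0` (hypothesis `hc2`).
`a (m+θ) + r = a m + α`, `b (m+θ) + (1-r) = b m + cθ + 1 - α = b m + β`, `c (m+θ) = c m + α+β-1`.
So `N m = smax^(-(m+θ)) Γ(a m+α) Γ(b m+β)/Γ(c m+α+β-1)` is a `Rep`, and `T_even` gives
`T (k ↦ smax^(-(2k+θ)) ... ψ(2k))`; multiply by `smax^θ (smax²)^k` with `T_scale` (and `T_congr`).
The odd case is the same with `2k+1` (`T_odd`).
-/

set_option autoImplicit false

namespace Pool.Agent.Lib.MP_8382de_an.ALG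

open Filter Topology

theorem Rep_beta {a b θ r : ℝ} (ha : 0 < a) (hb : 0 < b) (hθ : 0 < θ) (hr0 : 0 < r)
    (hr1 : r < 1) :
    Rep (fun m => smax a b ^ (-((m : ℝ) + θ)) *
      (Real.Gamma (a * ((m : ℝ) + θ) + r) * Real.Gamma (b * ((m : ℝ) + θ) + (1 - r)) /
        Real.Gamma ((a + b) * ((m : ℝ) + θ)))) := by
  have hp : ∀ m : ℕ, 0 < (m : ℝ) + θ := fun m => by positivity
  refine ⟨wfn a b r, sfn a b, θ, hθ.le, fun u hu => wfn_nonneg ha hb hr0 hr1 hu,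
    fun u hu => ⟨sfn_pos ha hb hu, sfn_le_one ha hb hu⟩,
    fun m => beta_int ha hb hr0 hr1 (hp m), fun m => ?_, ?_⟩
  · rw [beta_ftc ha hb hr0 hr1 (hp m), beta_eval ha hb hr0 hr1 (hp m)]
  · have h0 := hp 0
    have h1 : 0 < smax a b := smax_pos ha hb
    have g1 : 0 < Real.Gamma (a * (((0 : ℕ) : ℝ) + θ) + r) := Real.Gamma_pos_of_pos (by positivity)
    have g2 : 0 < Real.Gamma (b * (((0 : ℕ) : ℝ) + θ) + (1 - r)) :=
      Real.Gamma_pos_of_pos (by
        have : 0 < b * (((0 : ℕ) : ℝ) + θ) := by positivity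
        linarith)
    have g3 : 0 < Real.Gamma ((a + b) * (((0 : ℕ) : ℝ) + θ)) :=
      Real.Gamma_pos_of_pos (by positivity)
    exact mul_pos (Real.rpow_pos_of_pos h1 _) (div_pos (mul_pos g1 g2) g3)

private theorem BetR_data {a b α β : ℝ} (ha : 0 < a) (hb : 0 < b)
    (h1 : 1 < α + β) (hc1 : a * (β - 1) < b * α) (hc2 : b * (α - 1) < a * β) :
    ∃ θ r : ℝ, 0 < θ ∧ 0 < r ∧ r < 1 ∧ (∀ x : ℝ, a * (x + θ) + r = a * x + α) ∧
      (∀ x : ℝ, b * (x + θ) + (1 - r) = b * x + β) ∧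
      (∀ x : ℝ, (a + b) * (x + θ) = (a + b) * x + (α + β - 1)) := by
  have hc : 0 < a + b := by positivity
  have hθ : (a + b) * ((α + β - 1) / (a + b)) = α + β - 1 := by field_simp
  refine ⟨(α + β - 1) / (a + b), α - a * ((α + β - 1) / (a + b)), div_pos (by linarith) hc,
    ?_, ?_, fun x => by ring, fun x => ?_, fun x => ?_⟩
  · have : α - a * ((α + β - 1) / (a + b)) = (b * α - a * (β - 1)) / (a + b) := by
      field_simp; ring
    rw [this]
    exact div_pos (by linarith) hc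
  · have : 1 - (α - a * ((α + β - 1) / (a + b))) = (a * β - b * (α - 1)) / (a + b) := by
      field_simp; ring
    have h2 : 0 < (a * β - b * (α - 1)) / (a + b) := div_pos (by linarith) hc
    linarith
  · linear_combination hθ
  · linear_combination hθ

private theorem BetR_pow {s θ : ℝ} (hs : 0 < s) (n : ℕ) :
    s ^ θ * s ^ n * s ^ (-((n : ℝ) + θ)) = 1 := by
  rw [← Real.rpow_natCast, ← Real.rpow_add hs, ← Real.rpow_add hs]
  have : θ + (n : ℝ) + -((n : ℝ) + θ) = 0 := by ring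
  rw [this, Real.rpow_zero]

theorem step_even {ψ : ℕ → ℝ} {a b α β : ℝ} (ha : 0 < a) (hb : 0 < b) (hα : 0 < α)
    (hβ : 0 < β) (h1 : 1 < α + β) (hc1 : a * (β - 1) < b * α) (hc2 : b * (α - 1) < a * β)
    (h : T ψ) :
    T (fun k => ψ (2 * k) * (Real.Gamma (a * (2 * (k : ℝ)) + α) *
      Real.Gamma (b * (2 * (k : ℝ)) + β) /
        Real.Gamma ((a + b) * (2 * (k : ℝ)) + (α + β - 1)))) := by
  obtain ⟨θ, r, hθ, hr0, hr1, e1, e2, e3⟩ := BetR_data ha hb h1 hc1 hc2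
  have hs : 0 < smax a b := smax_pos ha hb
  have hT := T_scale (T_even h (Rep_beta ha hb hθ hr0 hr1)) (c := smax a b ^ θ)
    (r := smax a b ^ 2) (Real.rpow_pos_of_pos hs _) (by positivity)
  refine T_congr hT (fun k => ?_)
  have hp := BetR_pow (θ := θ) hs (2 * k)
  simp only [e1, e2, e3]
  rw [← pow_mul]
  push_cast at hp ⊢
  set G := Real.Gamma (a * (2 * (k : ℝ)) + α) * Real.Gamma (b * (2 * (k : ℝ)) + β) /
        Real.Gamma ((a + b) * (2 * (k : ℝ)) + (α + β - 1)) with hG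
  linear_combination (G * ψ (2 * k)) * hp

theorem step_odd {ψ : ℕ → ℝ} {a b α β : ℝ} (ha : 0 < a) (hb : 0 < b) (hα : 0 < α)
    (hβ : 0 < β) (h1 : 1 < α + β) (hc1 : a * (β - 1) < b * α) (hc2 : b * (α - 1) < a * β)
    (h : T ψ) (hψ : 0 < ψ 1) :
    T (fun k => ψ (2 * k + 1) * (Real.Gamma (a * (2 * (k : ℝ) + 1) + α) *
      Real.Gamma (b * (2 * (k : ℝ) + 1) + β) /
        Real.Gamma ((a + b) * (2 * (k : ℝ) + 1) + (α + β - 1)))) := by
  obtain ⟨θ, r, hθ, hr0, hr1, e1, e2, e3⟩ := BetR_data ha hb h1 hc1 hc2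
  have hs : 0 < smax a b := smax_pos ha hb
  have hT := T_scale (T_odd h hψ (Rep_beta ha hb hθ hr0 hr1)) (c := smax a b ^ θ * smax a b)
    (r := smax a b ^ 2) (mul_pos (Real.rpow_pos_of_pos hs _) hs) (by positivity)
  refine T_congr hT (fun k => ?_)
  have hp := BetR_pow (θ := θ) hs (2 * k + 1)
  simp only [e1, e2, e3]
  rw [← pow_mul]
  rw [pow_succ] at hp
  push_cast at hp ⊢
  set G := Real.Gamma (a * (2 * (k : ℝ) + 1) + α) * Real.Gamma (b * (2 * (k : ℝ) + 1) + β) /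
        Real.Gamma ((a + b) * (2 * (k : ℝ) + 1) + (α + β - 1)) with hG
  linear_combination (G * ψ (2 * k + 1)) * hp

end Pool.Agent.Lib.MP_8382de_an.ALG
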