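import Mathlib

/-!
# MP_8382de_an, module ALG.Defs (complete, do not change)

Definitions for the algebraic proof that `Φ_{a,b,c,d}` has only real negative zeros.

* `Neg p`  : `p(0) > 0` and all complex zeros of the real polynomial `p` are real and negative.
* `Hur p`  : `p(0) > 0` and all complex zeros of `p` have negative real part.
* `T φ`    : the sequence `φ` is a coefficientwise limit of `Neg` polynomials.
* `mulc N p`, `secE p`, `secO p` : multiply the `m`-th coefficient by `N m`; even and odd section.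
* `Rep N`  : `N m = ∫_0^1 w(u) (1 - s(u)^(m+θ)) du` with `w ≥ 0`, `0 < s ≤ 1`, `θ ≥ 0` and `N 0 > 0`.
-/

set_option autoImplicit false

namespace Pool.Agent.Lib.MP_8382de_an.ALG

open Polynomial Filter Topology

/-- positive constant term, all complex zeros real and negative -/
def Neg (p : Polynomial ℝ) : Prop :=
  0 < p.coeff 0 ∧ ∀ z : ℂ, aeval z p = 0 → z.im = 0 ∧ z.re < 0

/-- positive constant term, all complex zeros in the open left half plane -/
def Hur (p : Polynomial ℝ) : Prop :=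
  0 < p.coeff 0 ∧ ∀ z : ℂ, aeval z p = 0 → z.re < 0

/-- coefficientwise limits of `Neg` polynomials -/
def T (φ : ℕ → ℝ) : Prop :=
  ∃ p : ℕ → Polynomial ℝ, (∀ n, Neg (p n)) ∧
    ∀ k, Tendsto (fun n => (p n).coeff k) atTop (𝓝 (φ k))

/-- multiply the `m`-th coefficient by `N m` -/
noncomputable def mulc (N : ℕ → ℝ) (p : Polynomial ℝ) : Polynomial ℝ :=
  ∑ m ∈ Finset.range (p.natDegree + 1), monomial m (N m * p.coeff m)

/-- even section `∑ p_{2k} X^k` -/
noncomputable def secE (p : Polynomial ℝ) : Polynomial ℝ :=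
  ∑ k ∈ Finset.range (p.natDegree + 1), monomial k (p.coeff (2 * k))

/-- odd section `∑ p_{2k+1} X^k` -/
noncomputable def secO (p : Polynomial ℝ) : Polynomial ℝ :=
  ∑ k ∈ Finset.range (p.natDegree + 1), monomial k (p.coeff (2 * k + 1))

lemma coeff_mulc (N : ℕ → ℝ) (p : Polynomial ℝ) (m : ℕ) :
    (mulc N p).coeff m = N m * p.coeff m := by
  unfold mulc
  rw [finset_sum_coeff]
  simp only [coeff_monomial]
  rw [Finset.sum_ite_eq']
  split_ifs with h
  · rfl
  · have : p.coeff m = 0 := coeff_eq_zero_of_natDegree_lt (by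
      simp only [Finset.mem_range] at h; omega)
    rw [this, mul_zero]

lemma coeff_secE (p : Polynomial ℝ) (k : ℕ) : (secE p).coeff k = p.coeff (2 * k) := by
  unfold secE
  rw [finset_sum_coeff]
  simp only [coeff_monomial]
  rw [Finset.sum_ite_eq']
  split_ifs with h
  · rfl
  · symm
    exact coeff_eq_zero_of_natDegree_lt (by
      simp only [Finset.mem_range] at h; omega)

lemma coeff_secO (p : Polynomial ℝ) (k : ℕ) : (secO p).coeff k = p.coeff (2 * k + 1) := by
  unfold secO
  rw [finset_sum_coeff]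
  simp only [coeff_monomial]
  rw [Finset.sum_ite_eq']
  split_ifs with h
  · rfl
  · symm
    exact coeff_eq_zero_of_natDegree_lt (by
      simp only [Finset.mem_range] at h; omega)

/-- integral representation of a Bernstein type multiplier -/
def Rep (N : ℕ → ℝ) : Prop :=
  ∃ (w s : ℝ → ℝ) (θ : ℝ), 0 ≤ θ ∧
    (∀ u ∈ Set.Ioo (0 : ℝ) 1, 0 ≤ w u) ∧
    (∀ u ∈ Set.Ioo (0 : ℝ) 1, 0 < s u ∧ s u ≤ 1) ∧
    (∀ m : ℕ, MeasureTheory.IntegrableOn
      (fun u => w u * (1 - s u ^ ((m : ℝ) + θ))) (Set.Ioo 0 1)) ∧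
    (∀ m : ℕ, N m = ∫ u in Set.Ioo (0 : ℝ) 1, w u * (1 - s u ^ ((m : ℝ) + θ))) ∧
    0 < N 0

/-- the point where `u^a (1-u)^b` is maximal -/
noncomputable def ust (a b : ℝ) : ℝ := a / (a + b)

/-- `u^a (1-u)^b` divided by its maximum -/
noncomputable def sfn (a b u : ℝ) : ℝ := (u / ust a b) ^ a * ((1 - u) / (1 - ust a b)) ^ b

/-- the weight of the Bernstein representation, `0 < r < 1` -/
noncomputable def wfn (a b r u : ℝ) : ℝ :=
  (a + b) * (u ^ (r - 1) * (1 - u) ^ (-r)) * (r * a * (1 - u) + (1 - r) * b * u) /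
    (a - (a + b) * u) ^ 2

/-- maximum of `u^a (1-u)^b` on `[0,1]` -/
noncomputable def smax (a b : ℝ) : ℝ := ust a b ^ a * (1 - ust a b) ^ b

end Pool.Agent.Lib.MP_8382de_an.ALG
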