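import Pool.Agent.Lib.MP_8382de_an.ALG.Defs

/-!
# ALG.Fac: factorisation of `Neg` polynomials

PROOF of `Neg.fac`. Induction on `p.natDegree` (strong, generalising `p`). `p ≠ 0` since
`p.coeff 0 > 0`. If `natDegree p = 0` then `p = C (p.coeff 0)` and `S = 0` works.
Otherwise `p.map (algebraMap ℝ ℂ)` has positive degree, so `p` has a complex root `z`
(`IsAlgClosed.exists_aeval_eq_zero` or `Complex.exists_root`); by `Neg`, `z = (ζ : ℂ)` with a real
`ζ < 0`, so `p.eval ζ = 0` (`aeval (ζ : ℂ) p = ((p.eval ζ : ℝ) : ℂ)`). Put `x = -1/ζ > 0`.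
`X - C ζ ∣ p` (`dvd_iff_isRoot`), `p = (X - C ζ) * q₀`, and `X - C ζ = C (-ζ) * (1 + C x * X)`,
so `p = (1 + C x * X) * q`, `q = C (-ζ) * q₀`. Then `q.coeff 0 = p.coeff 0 > 0`
(`mul_coeff_zero`), every complex root of `q` is one of `p`, so `Neg q`, and
`natDegree q < natDegree p` (`natDegree_mul`, both factors nonzero, first one of degree 1).
Take `S = x ::ₘ S_q`.

PROOF of `neg_of_fac`. `coeff 0` is multiplicative: it is `c * ∏ 1 = c > 0`. If
`aeval z (C c * ∏ (1 + x X)) = 0` then some factor vanishes: `1 + x z = 0`, `z = -1/x`.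
(Use `Multiset.induction_on S`, or `map_multiset_prod` and `Multiset.prod_eq_zero_iff`.)

`aeval_fac` is a convenience: the value at `z` as a product.
-/

set_option autoImplicit false

namespace Pool.Agent.Lib.MP_8382de_an.ALG

open Polynomial

private lemma Fac_aux (n : ℕ) : ∀ p : Polynomial ℝ, p.natDegree = n → Neg p →
    ∃ S : Multiset ℝ, (∀ x ∈ S, 0 < x) ∧
      p = C (p.coeff 0) * (S.map (fun x => 1 + C x * X)).prod := by
  induction n with
  | zero =>
    intro p hd hp
    exact ⟨0, by simp, by simpa using eq_C_of_natDegree_eq_zero hd⟩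
  | succ n ih =>
    intro p hd hp
    have hdeg : p.degree ≠ 0 := by
      intro h
      have h1 := natDegree_eq_of_degree_eq_some (n := 0) h
      omega
    obtain ⟨z, hz⟩ := IsAlgClosed.exists_aeval_eq_zero ℂ p hdeg
    obtain ⟨him, hre⟩ := hp.2 z hz
    have hzz : z = algebraMap ℝ ℂ z.re := Complex.ext (by simp) (by simp [him])
    have hroot : p.IsRoot z.re := by
      have h1 : aeval (algebraMap ℝ ℂ z.re) p = 0 := by
        rw [← hzz]
        exact hz
      rw [aeval_algebraMap_apply] at h1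
      have h2 := (map_eq_zero_iff _ (algebraMap ℝ ℂ).injective).1 h1
      rw [IsRoot.def, ← coe_aeval_eq_eval]
      exact h2
    obtain ⟨q₀, hq₀⟩ := dvd_iff_isRoot.2 hroot
    set ζ : ℝ := z.re with hζ
    have hζ0 : -ζ ≠ 0 := by
      intro h
      linarith
    have hx : 0 < (-ζ)⁻¹ := inv_pos.2 (by linarith)
    have hpq : p = (1 + C (-ζ)⁻¹ * X) * (C (-ζ) * q₀) := by
      rw [← mul_assoc]
      have h1 : (1 + C (-ζ)⁻¹ * X) * C (-ζ) = X - C ζ := by
        rw [add_mul, one_mul, mul_assoc, X_mul_C, ← mul_assoc, ← C_mul, inv_mul_cancel₀ hζ0, C_1,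
          one_mul, C_neg]
        ring
      rw [h1]
      exact hq₀
    have hc0 : (C (-ζ) * q₀).coeff 0 = p.coeff 0 := by
      conv_rhs => rw [hpq, mul_coeff_zero]
      simp
    have hq₀0 : q₀ ≠ 0 := by
      rintro rfl
      rw [mul_zero] at hq₀
      rw [hq₀] at hd
      simp at hd
    have hdq : (C (-ζ) * q₀).natDegree = n := by
      rw [natDegree_C_mul hζ0]
      have h1 : p.natDegree = (X - C ζ).natDegree + q₀.natDegree := by
        conv_lhs => rw [hq₀]
        exact natDegree_mul (X_sub_C_ne_zero ζ) hq₀0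
      rw [natDegree_X_sub_C] at h1
      omega
    have hqN : Neg (C (-ζ) * q₀) := by
      refine ⟨by rw [hc0]; exact hp.1, fun w hw => hp.2 w ?_⟩
      rw [hpq, map_mul, hw, mul_zero]
    obtain ⟨S, hS, hq⟩ := ih _ hdq hqN
    refine ⟨(-ζ)⁻¹ ::ₘ S, ?_, ?_⟩
    · intro x hxS
      rw [Multiset.mem_cons] at hxS
      rcases hxS with rfl | hxS
      · exact hx
      · exact hS x hxS
    · rw [Multiset.map_cons, Multiset.prod_cons, ← hc0]
      calc p = (1 + C (-ζ)⁻¹ * X) * (C (-ζ) * q₀) := hpq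
        _ = (1 + C (-ζ)⁻¹ * X) * (C ((C (-ζ) * q₀).coeff 0) *
              (S.map (fun x => 1 + C x * X)).prod) := by rw [← hq]
        _ = _ := by ring

theorem Neg.fac {p : Polynomial ℝ} (hp : Neg p) :
    ∃ S : Multiset ℝ, (∀ x ∈ S, 0 < x) ∧
      p = C (p.coeff 0) * (S.map (fun x => 1 + C x * X)).prod :=
  Fac_aux p.natDegree p rfl hp

theorem aeval_fac (c : ℝ) (S : Multiset ℝ) (z : ℂ) :
    aeval z (C c * (S.map (fun x => 1 + C x * X)).prod) =
      (c : ℂ) * (S.map (fun x => 1 + (x : ℂ) * z)).prod := by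
  rw [map_mul, map_multiset_prod, Multiset.map_map, aeval_C]
  simp

/-- the same with the plain type of `x` (no coercion of the multiset `S`) -/
theorem Fac_aeval (c : ℝ) (S : Multiset ℝ) (z : ℂ) :
    aeval z (C c * (S.map (fun x => 1 + C x * X)).prod) =
      (c : ℂ) * (S.map (fun x : ℝ => 1 + (x : ℂ) * z)).prod := by
  rw [map_mul, map_multiset_prod, Multiset.map_map, aeval_C]
  simp

theorem neg_of_fac {c : ℝ} (hc : 0 < c) (S : Multiset ℝ) (hS : ∀ x ∈ S, 0 < x) :
    Neg (C c * (S.map (fun x => 1 + C x * X)).prod) := by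
  refine ⟨?_, fun z hz => ?_⟩
  · rw [coeff_zero_eq_eval_zero, eval_mul, eval_C, eval_multiset_prod, Multiset.map_map]
    have h1 : (S.map (eval 0 ∘ fun x => 1 + C x * X)).prod = 1 := by
      apply Multiset.prod_eq_one
      intro y hy
      rw [Multiset.mem_map] at hy
      obtain ⟨x, -, rfl⟩ := hy
      simp
    rw [h1, mul_one]
    exact hc
  · rw [Fac_aeval] at hz
    have hc' : (c : ℂ) ≠ 0 := by
      exact_mod_cast hc.ne'
    have h1 := (mul_eq_zero.1 hz).resolve_left hc'
    rw [Multiset.prod_eq_zero_iff, Multiset.mem_map] at h1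
    obtain ⟨x, hx, hxz⟩ := h1
    have hx0 := hS x hx
    have hre := congrArg Complex.re hxz
    have him := congrArg Complex.im hxz
    simp only [Complex.add_re, Complex.one_re, Complex.re_ofReal_mul, Complex.zero_re,
      Complex.add_im, Complex.one_im, Complex.im_ofReal_mul, Complex.zero_im, zero_add] at hre him
    refine ⟨(mul_eq_zero.1 him).resolve_left hx0.ne', ?_⟩
    by_contra hcon
    push Not at hcon
    nlinarith [mul_nonneg hx0.le hcon]

end Pool.Agent.Lib.MP_8382de_an.ALG
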