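import Pool.Agent.Lib.MP_8382de_an.ALG.NegB

/-!
# ALG.Fin: the zeros of a limit function

Let `T φ` with `0 < φ 0` and `p_n` the approximating polynomials.
* `T.bound`: limits of `Neg.coeff_nonneg` and `Neg.coeff_le` (`ge_of_tendsto'`,
  `le_of_tendsto_of_tendsto'`, continuity of division at `φ 0 ≠ 0`).
* `T.zeros`: suppose `z` is not a negative real. Let `C` be the constant of `Neg.lower z`. Then
  `‖p_n(z)‖ ≥ p_n(0) exp (-(C p_n.coeff 1 / p_n.coeff 0))`. The right side tends to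
  `φ 0 exp (-(C φ 1 / φ 0)) > 0`. The left side tends to `‖∑' k, φ k z^k‖`:
  `aeval z p = ∑' k, (p.coeff k : ℂ) z^k` (finite sum, `Polynomial.aeval_eq_sum_range`,
  `tsum_eq_sum`), and `tendsto_tsum_of_dominated_convergence` with the bound
  `M * (A * ‖z‖)^k / k!`, where eventually `p_n.coeff 0 ≤ M := 2 φ 0` and
  `p_n.coeff 1 / p_n.coeff 0 ≤ A := φ 1 / φ 0 + 1` (`Neg.coeff_le`; summable by
  `Real.summable_pow_div_factorial`). So `‖∑' k, φ k z^k‖ ≥ φ 0 exp (...) > 0`.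
-/

set_option autoImplicit false

namespace Pool.Agent.Lib.MP_8382de_an.ALG

open Polynomial Filter Topology

theorem T.bound {φ : ℕ → ℝ} (h : T φ) (h0 : 0 < φ 0) (k : ℕ) :
    0 ≤ φ k ∧ φ k ≤ φ 0 * (φ 1 / φ 0) ^ k / (k.factorial : ℝ) := by
  obtain ⟨p, hp, hc⟩ := h
  refine ⟨ge_of_tendsto' (hc k) fun n => (hp n).coeff_nonneg k, ?_⟩
  have h1 : Tendsto (fun n => (p n).coeff 0 * ((p n).coeff 1 / (p n).coeff 0) ^ k /
      (k.factorial : ℝ)) atTop (𝓝 (φ 0 * (φ 1 / φ 0) ^ k / (k.factorial : ℝ))) :=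
    ((hc 0).mul (((hc 1).div (hc 0) h0.ne').pow k)).div_const _
  exact le_of_tendsto_of_tendsto' (hc k) h1 fun n => (hp n).coeff_le k

private lemma Fin_aeval (p : Polynomial ℝ) (z : ℂ) :
    aeval z p = ∑' k : ℕ, (p.coeff k : ℂ) * z ^ k := by
  rw [Polynomial.aeval_eq_sum_range, tsum_eq_sum (s := Finset.range (p.natDegree + 1))]
  · refine Finset.sum_congr rfl fun k _ => ?_
    rw [Complex.real_smul]
  · intro k hk
    rw [Finset.mem_range, not_lt] at hk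
    rw [Polynomial.coeff_eq_zero_of_natDegree_lt (by omega)]
    simp

theorem T.zeros {φ : ℕ → ℝ} (h : T φ) (h0 : 0 < φ 0) (z : ℂ)
    (hz : ∑' k : ℕ, (φ k : ℂ) * z ^ k = 0) : z.im = 0 ∧ z.re < 0 := by
  by_contra hcon
  obtain ⟨C, hC, hlow⟩ := Neg.lower z hcon
  obtain ⟨p, hp, hc⟩ := h
  have hq : Tendsto (fun n => (p n).coeff 1 / (p n).coeff 0) atTop (𝓝 (φ 1 / φ 0)) :=
    (hc 1).div (hc 0) h0.ne'
  have hR : Tendsto (fun n => (p n).coeff 0 *
      Real.exp (-(C * ((p n).coeff 1 / (p n).coeff 0)))) atTop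
      (𝓝 (φ 0 * Real.exp (-(C * (φ 1 / φ 0))))) := by
    refine (hc 0).mul ?_
    exact (Real.continuous_exp.tendsto _).comp ((hq.const_mul C).neg)
  have hM : ∀ᶠ n in atTop, (p n).coeff 0 ≤ 2 * φ 0 :=
    (hc 0).eventually_le_const (by linarith)
  have hA : ∀ᶠ n in atTop, (p n).coeff 1 / (p n).coeff 0 ≤ φ 1 / φ 0 + 1 :=
    hq.eventually_le_const (by linarith)
  have hL : Tendsto (fun n => ∑' k : ℕ, ((p n).coeff k : ℂ) * z ^ k) atTop
      (𝓝 (∑' k : ℕ, (φ k : ℂ) * z ^ k)) := by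
    refine tendsto_tsum_of_dominated_convergence
      (bound := fun k : ℕ => 2 * φ 0 * (((φ 1 / φ 0 + 1) * ‖z‖) ^ k / (k.factorial : ℝ))) ?_ ?_ ?_
    · exact (Real.summable_pow_div_factorial _).mul_left _
    · intro k
      refine Tendsto.mul_const _ ?_
      exact (Complex.continuous_ofReal.tendsto _).comp (hc k)
    · filter_upwards [hM, hA] with n hMn hAn k
      have hk0 : 0 ≤ (p n).coeff k := (hp n).coeff_nonneg k
      have hk1 := (hp n).coeff_le k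
      have hpos : 0 < (p n).coeff 0 := (hp n).1
      have hr : 0 ≤ (p n).coeff 1 / (p n).coeff 0 := div_nonneg ((hp n).coeff_nonneg 1) hpos.le
      rw [norm_mul, norm_pow, Complex.norm_real, Real.norm_eq_abs, abs_of_nonneg hk0, mul_pow]
      have h1 : ((p n).coeff 1 / (p n).coeff 0) ^ k ≤ (φ 1 / φ 0 + 1) ^ k :=
        pow_le_pow_left₀ hr hAn k
      have h2 : (p n).coeff 0 * ((p n).coeff 1 / (p n).coeff 0) ^ k ≤
          2 * φ 0 * (φ 1 / φ 0 + 1) ^ k :=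
        mul_le_mul hMn h1 (pow_nonneg hr k) (by linarith)
      have h3 : (p n).coeff k ≤ 2 * φ 0 * (φ 1 / φ 0 + 1) ^ k / (k.factorial : ℝ) :=
        hk1.trans (div_le_div_of_nonneg_right h2 (by positivity))
      calc (p n).coeff k * ‖z‖ ^ k
          ≤ 2 * φ 0 * (φ 1 / φ 0 + 1) ^ k / (k.factorial : ℝ) * ‖z‖ ^ k :=
            mul_le_mul_of_nonneg_right h3 (by positivity)
        _ = 2 * φ 0 * ((φ 1 / φ 0 + 1) ^ k * ‖z‖ ^ k / (k.factorial : ℝ)) := by ring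
  have hL2 : Tendsto (fun n => ‖aeval z (p n)‖) atTop (𝓝 ‖∑' k : ℕ, (φ k : ℂ) * z ^ k‖) := by
    have h1 := hL.norm
    refine h1.congr fun n => ?_
    rw [Fin_aeval]
  have hfin := le_of_tendsto_of_tendsto' hR hL2 fun n => hlow (p n) (hp n)
  rw [hz, norm_zero] at hfin
  have : 0 < φ 0 * Real.exp (-(C * (φ 1 / φ 0))) := mul_pos h0 (Real.exp_pos _)
  linarith

end Pool.Agent.Lib.MP_8382de_an.ALG
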