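import Pool.Agent.Lib.MP_8382de_an.ALG.NegB

/-!
# ALG.HurP: Bernstein multipliers make Hurwitz polynomials

Let `Rep N` with data `w, s, θ` and `Neg p`.
* `Rep.mono`: `s^(m+1+θ) ≤ s^(m+θ)` as `0 < s ≤ 1`, so the integrand increases with `m`
  (`MeasureTheory.setIntegral_mono_on`). `Rep.pos`: `N m ≥ N 0 > 0`.
* `Hur_mulc`. The constant term is `N 0 p_0 > 0`. Let `Re t ≥ 0`, `P = mulc N p`. Then
  `P(t) = ∑_m N(m) p_m t^m = ∫_0^1 w(u) ∑_m p_m t^m (1 - s(u)^(m+θ)) du`
  `= ∫ w(u) (p(t) - s(u)^θ p(s(u) t)) du` (finite sum of integrable functions;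
  `s^(m+θ) = s^θ s^m`, `Real.rpow_add`, `Real.rpow_natCast`). Divide by `p(t) ≠ 0` (`Neg.ne`):
  `Re (P(t)/p(t)) = ∫ w(u) (1 - s^θ Re (p(s t)/p(t))) du ≥ ∫ w(u) (1 - s^θ) du = N 0 > 0`
  because `Re (p(st)/p(t)) ≤ ‖p(st)‖/‖p(t)‖ ≤ 1` (`Neg.ray`). Hence `P(t) ≠ 0`.
  In Lean it is convenient to avoid complex integrals: with `q_m = Re (p_m t^m / p(t))` (real
  numbers, `∑ q_m = 1`), `Re (P(t)/p(t)) = ∑_m N m q_m = ∫ w(u) (∑_m q_m (1 - s^(m+θ))) du` and
  `∑_m q_m (1 - s^(m+θ)) = 1 - s^θ Re (p(s t)/p(t)) ≥ 1 - s^θ`.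
-/

set_option autoImplicit false

namespace Pool.Agent.Lib.MP_8382de_an.ALG

open Polynomial MeasureTheory

theorem Rep.mono {N : ℕ → ℝ} (hN : Rep N) (m : ℕ) : N m ≤ N (m + 1) := by
  obtain ⟨w, s, θ, hθ, hw, hs, hint, hNm, h0⟩ := hN
  rw [hNm m, hNm (m + 1)]
  refine setIntegral_mono_on (hint m) (hint (m + 1)) measurableSet_Ioo ?_
  intro u hu
  refine mul_le_mul_of_nonneg_left ?_ (hw u hu)
  have h1 : s u ^ (((m + 1 : ℕ) : ℝ) + θ) ≤ s u ^ ((m : ℝ) + θ) :=
    Real.rpow_le_rpow_of_exponent_ge (hs u hu).1 (hs u hu).2 (by push_cast; linarith)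
  linarith

theorem Rep.pos {N : ℕ → ℝ} (hN : Rep N) (m : ℕ) : 0 < N m := by
  induction m with
  | zero =>
    obtain ⟨w, s, θ, hθ, hw, hs, hint, hNm, h0⟩ := hN
    exact h0
  | succ m ih => exact lt_of_lt_of_le ih (hN.mono m)

theorem HurP_mulc (N : ℕ → ℝ) (p : Polynomial ℝ) (t : ℂ) :
    aeval t (mulc N p) = ∑ m ∈ Finset.range (p.natDegree + 1), ((N m : ℝ) : ℂ) * ((p.coeff m : ℂ) * t ^ m) := by
  unfold mulc
  rw [map_sum]
  refine Finset.sum_congr rfl ?_
  intro m _
  rw [aeval_monomial]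
  simp only [Complex.coe_algebraMap]
  push_cast
  ring

theorem HurP_aeval (p : Polynomial ℝ) (t : ℂ) :
    aeval t p = ∑ m ∈ Finset.range (p.natDegree + 1), (p.coeff m : ℂ) * t ^ m := by
  rw [aeval_eq_sum_range]
  refine Finset.sum_congr rfl ?_
  intro m _
  rw [Algebra.smul_def]
  rfl

theorem Hur_mulc {N : ℕ → ℝ} (hN : Rep N) {p : Polynomial ℝ} (hp : Neg p) :
    Hur (mulc N p) := by
  refine ⟨?_, ?_⟩
  · rw [coeff_mulc]
    exact mul_pos (hN.pos 0) hp.1
  · intro t ht0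
    by_contra hre
    push Not at hre
    have hA : aeval t p ≠ 0 := hp.ne hre
    obtain ⟨w, s, θ, hθ, hw, hs, hint, hNm, h0⟩ := hN
    set A := aeval t p with hAdef
    set d := p.natDegree + 1 with hd
    set q : ℕ → ℝ := fun m => ((p.coeff m : ℂ) * t ^ m / A).re with hq
    -- the sum of N m q m vanishes
    have hz : ∑ m ∈ Finset.range d, N m * q m = 0 := by
      have h1 : (aeval t (mulc N p) / A).re = ∑ m ∈ Finset.range d, N m * q m := by
        rw [HurP_mulc, Finset.sum_div, Complex.re_sum]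
        refine Finset.sum_congr rfl ?_
        intro m _
        rw [mul_div_assoc, Complex.re_ofReal_mul]
      rw [← h1, ht0]; simp
    have hq1 : ∑ m ∈ Finset.range d, q m = 1 := by
      have h1 : (A / A).re = ∑ m ∈ Finset.range d, q m := by
        conv_lhs => rw [hAdef, HurP_aeval p t, Finset.sum_div, Complex.re_sum]
        rw [← HurP_aeval p t]
      rw [← h1, div_self hA]; simp
    have hqs : ∀ u ∈ Set.Ioo (0 : ℝ) 1, ∑ m ∈ Finset.range d, q m * s u ^ m ≤ 1 := by
      intro u hu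
      have h1 : (aeval ((s u : ℂ) * t) p / A).re = ∑ m ∈ Finset.range d, q m * s u ^ m := by
        rw [HurP_aeval, Finset.sum_div, Complex.re_sum]
        refine Finset.sum_congr rfl ?_
        intro m _
        rw [mul_pow, hq]
        show ((p.coeff m : ℂ) * ((s u : ℂ) ^ m * t ^ m) / A).re = ((p.coeff m : ℂ) * t ^ m / A).re * s u ^ m
        have h2 : (p.coeff m : ℂ) * ((s u : ℂ) ^ m * t ^ m) / A =
            ((s u ^ m : ℝ) : ℂ) * ((p.coeff m : ℂ) * t ^ m / A) := by
          push_cast; ring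
        rw [h2, Complex.re_ofReal_mul]; ring
      rw [← h1]
      have h3 := hp.ray hre (hs u hu).1.le (hs u hu).2
      calc (aeval ((s u : ℂ) * t) p / A).re ≤ ‖aeval ((s u : ℂ) * t) p / A‖ := Complex.re_le_norm _
        _ = ‖aeval ((s u : ℂ) * t) p‖ / ‖A‖ := norm_div _ _
        _ ≤ 1 := by
            rw [div_le_one (norm_pos_iff.2 hA)]
            exact h3
    have hsum : ∑ m ∈ Finset.range d, N m * q m =
        ∫ u in Set.Ioo (0 : ℝ) 1, ∑ m ∈ Finset.range d, q m * (w u * (1 - s u ^ ((m : ℝ) + θ))) := by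
      rw [integral_finsetSum]
      · refine Finset.sum_congr rfl ?_
        intro m _
        rw [integral_const_mul, hNm m]; ring
      · intro m _
        exact (hint m).const_mul _
    have hle : N 0 ≤ ∫ u in Set.Ioo (0 : ℝ) 1, ∑ m ∈ Finset.range d, q m * (w u * (1 - s u ^ ((m : ℝ) + θ))) := by
      rw [hNm 0]
      refine setIntegral_mono_on (hint 0) ?_ measurableSet_Ioo ?_
      · exact integrable_finsetSum _ (fun m _ => (hint m).const_mul _)
      · intro u hu
        have hs0 := (hs u hu).1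
        have h1 : ∑ m ∈ Finset.range d, q m * (w u * (1 - s u ^ ((m : ℝ) + θ))) =
            w u * (1 - s u ^ θ * ∑ m ∈ Finset.range d, q m * s u ^ m) := by
          have h2 : ∀ m ∈ Finset.range d, q m * (w u * (1 - s u ^ ((m : ℝ) + θ))) =
              w u * q m - w u * s u ^ θ * (q m * s u ^ m) := by
            intro m _
            rw [Real.rpow_add hs0, Real.rpow_natCast]; ring
          rw [Finset.sum_congr rfl h2, Finset.sum_sub_distrib, ← Finset.mul_sum, ← Finset.mul_sum, hq1]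
          ring
        rw [h1]
        refine mul_le_mul_of_nonneg_left ?_ (hw u hu)
        have h3 : 0 ≤ s u ^ θ := Real.rpow_nonneg hs0.le _
        have h4 := hqs u hu
        simp only [Nat.cast_zero, zero_add]
        nlinarith
    rw [← hsum, hz] at hle
    linarith

end Pool.Agent.Lib.MP_8382de_an.ALG
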