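import Pool.Agent.Lib.MP_8382de_an.ALG.Fac
import Pool.Agent.Lib.MP_8382de_an.ALG.Clo

/-!
# ALG.LagP: Laguerre's step `p ↦ β p + X p'`

`Neg.lag`. `p = C c * ∏_{x∈S} (1 + x X)` (`Neg.fac`), `c > 0`. The constant term of
`β p + X p'` is `β c > 0`. Let `z` be a complex zero. If `p(z) = 0` then `z` is real negative.
Otherwise `1 + x z ≠ 0` for all `x ∈ S` and
`z p'(z) / p(z) = ∑_{x∈S} x z / (1 + x z)` (induction over `S`: for `q₁ = (1 + x X) q`,
`z q₁'(z) = x z q(z) + (1 + x z) z q'(z)`), so `β + ∑ x z/(1 + x z) = 0`. Since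
`x z / (1 + x z) = 1 - 1/(1 + x z)`, `Im (x z/(1+xz)) = x Im z / ‖1 + x z‖²` and
`Re (x z / (1 + x z)) = (x Re z + x² ‖z‖²)/‖1 + x z‖²`.
If `Im z ≠ 0`: the imaginary part of the sum is `Im z ∑ x/‖1+xz‖² ≠ 0` unless `S = 0`; and if
`S = 0` the equation says `β = 0`. Contradiction. If `Im z = 0` and `Re z ≥ 0`: the real part of the
sum is `≥ 0`, contradiction with `β > 0`. So `z` is real negative.

`T_lin`. `e = 0`: `T_scale` with `r = 1`. `e > 0`: `(e k + β) = e (k + β/e)`; the polynomial
`C (β/e) * p + X * derivative p` has coefficients `(β/e + k) p_k` (`coeff_X_mul'`/cases on `k`,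
`coeff_derivative`), then `T_scale` with `c = e`, `r = 1`.
-/

set_option autoImplicit false

namespace Pool.Agent.Lib.MP_8382de_an.ALG

open Polynomial Filter Topology

private theorem lagp_term (x : ℝ) (hx : 0 < x) (z : ℂ) (hz : 1 + (x : ℂ) * z ≠ 0) :
    ((x : ℂ) * z / (1 + (x : ℂ) * z)).im = z.im * (x / ‖1 + (x : ℂ) * z‖ ^ 2) ∧
    (z.im = 0 → 0 ≤ z.re → 0 ≤ ((x : ℂ) * z / (1 + (x : ℂ) * z)).re) := by
  have hn : 0 < ‖1 + (x : ℂ) * z‖ ^ 2 := by positivity
  have hsq : ‖1 + (x : ℂ) * z‖ ^ 2 = Complex.normSq (1 + (x : ℂ) * z) := by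
    rw [Complex.normSq_eq_norm_sq]
  constructor
  · rw [Complex.div_im, hsq]
    have h1 : ((x : ℂ) * z).im = x * z.im := by simp
    have h2 : ((x : ℂ) * z).re = x * z.re := by simp
    have h3 : (1 + (x : ℂ) * z).re = 1 + x * z.re := by simp
    have h4 : (1 + (x : ℂ) * z).im = x * z.im := by simp
    rw [h1, h2, h3, h4, ← sub_div, ← mul_div_assoc]
    congr 1
    ring
  · intro him hre
    rw [Complex.div_re]
    have h1 : ((x : ℂ) * z).im = 0 := by simp [him]
    have h2 : ((x : ℂ) * z).re = x * z.re := by simp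
    have h3 : (1 + (x : ℂ) * z).re = 1 + x * z.re := by simp
    rw [h1, h2, h3, zero_mul, zero_div, add_zero]
    have h5 : 0 ≤ x * z.re := mul_nonneg hx.le hre
    have h6 : 0 ≤ Complex.normSq (1 + (x : ℂ) * z) := Complex.normSq_nonneg _
    positivity

/-- the logarithmic derivative of a product -/
private theorem lagp_log (z : ℂ) (S : Multiset ℝ) (hS : ∀ x ∈ S, 1 + (x : ℂ) * z ≠ 0) :
    z * aeval z (derivative (S.map (fun x : ℝ => (1 + C x * X : Polynomial ℝ))).prod) =
      aeval z (S.map (fun x : ℝ => (1 + C x * X : Polynomial ℝ))).prod *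
        (S.map (fun x : ℝ => (x : ℂ) * z / (1 + (x : ℂ) * z))).sum := by
  induction S using Multiset.induction_on with
  | empty => simp
  | cons x S ih =>
    have h1 := ih (fun y hy => hS y (Multiset.mem_cons_of_mem hy))
    have h2 : 1 + (x : ℂ) * z ≠ 0 := hS x (Multiset.mem_cons_self x S)
    rw [Multiset.map_cons, Multiset.prod_cons, Multiset.map_cons, Multiset.sum_cons,
      derivative_mul]
    have h3 : derivative (1 + C x * X : Polynomial ℝ) = C x := by
      simp
    rw [h3]
    simp only [map_add, map_mul, aeval_C, aeval_X, map_one, Complex.coe_algebraMap] at h1 ⊢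
    rw [mul_add, mul_add]
    have h4 : z * ((1 + (x : ℂ) * z) * aeval z (derivative
        (S.map (fun x : ℝ => (1 + C x * X : Polynomial ℝ))).prod)) =
        (1 + (x : ℂ) * z) * (z * aeval z (derivative
        (S.map (fun x : ℝ => (1 + C x * X : Polynomial ℝ))).prod)) := by ring
    rw [h4, h1]
    have h5 : (1 + (x : ℂ) * z) * ((x : ℂ) * z / (1 + (x : ℂ) * z)) = (x : ℂ) * z :=
      mul_div_cancel₀ _ h2
    generalize (x : ℂ) * z / (1 + (x : ℂ) * z) = w at h5
    generalize aeval z (S.map (fun x : ℝ => (1 + C x * X : Polynomial ℝ))).prod = A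
    generalize (S.map (fun x : ℝ => (x : ℂ) * z / (1 + (x : ℂ) * z))).sum = B
    calc z * ((x : ℂ) * A) + (1 + (x : ℂ) * z) * (A * B)
        = A * ((x : ℂ) * z) + (1 + (x : ℂ) * z) * (A * B) := by ring
      _ = A * ((1 + (x : ℂ) * z) * w) + (1 + (x : ℂ) * z) * (A * B) := by rw [h5]
      _ = (1 + (x : ℂ) * z) * A * w + (1 + (x : ℂ) * z) * A * B := by ring

private theorem lagp_zero (z : ℂ) (S : Multiset ℝ) {x : ℝ} (hx : x ∈ S)
    (h : 1 + (x : ℂ) * z = 0) :
    aeval z (S.map (fun x : ℝ => (1 + C x * X : Polynomial ℝ))).prod = 0 := by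
  obtain ⟨S', rfl⟩ := Multiset.exists_cons_of_mem hx
  rw [Multiset.map_cons, Multiset.prod_cons, map_mul]
  have h1 : aeval z (1 + C x * X : Polynomial ℝ) = 0 := by
    simp only [map_add, map_mul, aeval_C, aeval_X, map_one, Complex.coe_algebraMap]
    exact h
  rw [h1, zero_mul]

theorem Neg.lag {p : Polynomial ℝ} (hp : Neg p) {β : ℝ} (hβ : 0 < β) :
    Neg (C β * p + X * derivative p) := by
  obtain ⟨S, hS, hpS⟩ := hp.fac
  refine ⟨?_, fun z hz => ?_⟩
  · have h1 : (C β * p + X * derivative p).coeff 0 = β * p.coeff 0 := by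
      simp
    rw [h1]
    exact mul_pos hβ hp.1
  · by_cases h0 : aeval z p = 0
    · exact hp.2 z h0
    have hc : (p.coeff 0 : ℂ) ≠ 0 := by
      exact_mod_cast hp.1.ne'
    have hfac : ∀ x ∈ S, 1 + (x : ℂ) * z ≠ 0 := by
      intro x hx h1
      apply h0
      rw [hpS, map_mul, lagp_zero z S hx h1, mul_zero]
    have hlog := lagp_log z S hfac
    have hder : z * aeval z (derivative p) = aeval z p *
        (S.map (fun x : ℝ => (x : ℂ) * z / (1 + (x : ℂ) * z))).sum := by
      have h1 : derivative p = C (p.coeff 0) *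
          derivative (S.map (fun x : ℝ => (1 + C x * X : Polynomial ℝ))).prod := by
        conv_lhs => rw [hpS]
        rw [derivative_C_mul]
      have h2 : aeval z p = (p.coeff 0 : ℂ) *
          aeval z (S.map (fun x : ℝ => (1 + C x * X : Polynomial ℝ))).prod := by
        conv_lhs => rw [hpS]
        rw [map_mul, aeval_C, Complex.coe_algebraMap]
      rw [h1, h2, map_mul, aeval_C, Complex.coe_algebraMap]
      rw [← mul_assoc, mul_comm z, mul_assoc, hlog, mul_assoc]
    have hsum : (β : ℂ) + (S.map (fun x : ℝ => (x : ℂ) * z / (1 + (x : ℂ) * z))).sum = 0 := by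
      have h1 : aeval z (C β * p + X * derivative p) = aeval z p *
          ((β : ℂ) + (S.map (fun x : ℝ => (x : ℂ) * z / (1 + (x : ℂ) * z))).sum) := by
        rw [map_add, map_mul, map_mul, aeval_C, aeval_X, hder, Complex.coe_algebraMap]
        ring
      rw [h1] at hz
      exact (mul_eq_zero.1 hz).resolve_left h0
    have him : ((S.map (fun x : ℝ => (x : ℂ) * z / (1 + (x : ℂ) * z))).sum).im =
        z.im * (S.map (fun x : ℝ => x / ‖1 + (x : ℂ) * z‖ ^ 2)).sum := by
      clear hlog hder hsum hpS
      induction S using Multiset.induction_on with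
      | empty => simp
      | cons x S ih =>
        have h1 := ih (fun y hy => hS y (Multiset.mem_cons_of_mem hy))
          (fun y hy => hfac y (Multiset.mem_cons_of_mem hy))
        rw [Multiset.map_cons, Multiset.sum_cons, Multiset.map_cons, Multiset.sum_cons,
          Complex.add_im, h1, (lagp_term x (hS x (Multiset.mem_cons_self x S)) z
          (hfac x (Multiset.mem_cons_self x S))).1, mul_add]
    have hzim : z.im = 0 := by
      by_contra hne
      have h1 := congrArg Complex.im hsum
      rw [Complex.add_im, Complex.ofReal_im, zero_add, him, Complex.zero_im] at h1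
      have h2 := (mul_eq_zero.1 h1).resolve_left hne
      by_cases hS0 : S = 0
      · rw [hS0, Multiset.map_zero, Multiset.sum_zero, add_zero] at hsum
        exact hβ.ne' (by exact_mod_cast hsum)
      · obtain ⟨x, hx⟩ := Multiset.exists_mem_of_ne_zero hS0
        obtain ⟨S', rfl⟩ := Multiset.exists_cons_of_mem hx
        rw [Multiset.map_cons, Multiset.sum_cons] at h2
        have h3 : 0 < x / ‖1 + (x : ℂ) * z‖ ^ 2 := by
          have h4 : 0 < x := hS x hx
          have h5 : 0 < ‖1 + (x : ℂ) * z‖ := norm_pos_iff.2 (hfac x hx)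
          positivity
        have h6 : 0 ≤ (S'.map (fun x : ℝ => x / ‖1 + (x : ℂ) * z‖ ^ 2)).sum := by
          apply Multiset.sum_nonneg
          intro y hy
          obtain ⟨w, hw, rfl⟩ := Multiset.mem_map.1 hy
          have h7 : 0 < w := hS w (Multiset.mem_cons_of_mem hw)
          positivity
        linarith
    refine ⟨hzim, ?_⟩
    by_contra hre
    have hre' : 0 ≤ z.re := not_lt.1 hre
    have h1 := congrArg Complex.re hsum
    rw [Complex.add_re, Complex.ofReal_re, Complex.zero_re] at h1
    have h2 : 0 ≤ ((S.map (fun x : ℝ => (x : ℂ) * z / (1 + (x : ℂ) * z))).sum).re := by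
      clear hlog hder hsum hpS him h1
      induction S using Multiset.induction_on with
      | empty => simp
      | cons x S ih =>
        have h1 := ih (fun y hy => hS y (Multiset.mem_cons_of_mem hy))
          (fun y hy => hfac y (Multiset.mem_cons_of_mem hy))
        rw [Multiset.map_cons, Multiset.sum_cons, Complex.add_re]
        exact add_nonneg ((lagp_term x (hS x (Multiset.mem_cons_self x S)) z
          (hfac x (Multiset.mem_cons_self x S))).2 hzim hre') h1
    linarith

theorem T_lin {φ : ℕ → ℝ} (h : T φ) {e β : ℝ} (he : 0 ≤ e) (hβ : 0 < β) :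
    T (fun k => (e * (k : ℝ) + β) * φ k) := by
  rcases he.eq_or_lt with rfl | he
  · have h1 := T_scale h (c := β) (r := 1) hβ one_pos
    refine T_congr h1 fun k => ?_
    simp
  · obtain ⟨p, hp, hpc⟩ := h
    have h1 : T (fun k => (β / e + (k : ℝ)) * φ k) := by
      refine ⟨fun n => C (β / e) * p n + X * derivative (p n),
        fun n => (hp n).lag (div_pos hβ he), fun k => ?_⟩
      have h2 : ∀ n, (C (β / e) * p n + X * derivative (p n)).coeff k =
          (β / e + (k : ℝ)) * (p n).coeff k := by
        intro n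
        rw [coeff_add, coeff_C_mul]
        cases k with
        | zero => simp
        | succ k =>
          rw [coeff_X_mul, coeff_derivative]
          push_cast
          ring
      simp only [h2]
      exact (hpc k).const_mul _
    have h3 := T_scale h1 (c := e) (r := 1) he one_pos
    refine T_congr h3 fun k => ?_
    rw [one_pow, mul_one, ← mul_assoc, mul_add, mul_div_cancel₀ _ he.ne']
    ring

end Pool.Agent.Lib.MP_8382de_an.ALG
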