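import Pool.Agent.Lib.MP_8382de_an.ALG.LagP

/-!
# ALG.Rat: the multiplier `Γ(k/n + 1)/k!` for a positive integer `n`

`n = 1`: the factor is 1. In general, for `M ≥ 1` and `K = n (M+1) - 1`:
`GammaSeq (k/n + 1) M = M^(k/n+1) M! / ∏_{j=0}^{M} (k/n + 1 + j)`,
`GammaSeq (k + 1) K = K^(k+1) K! / ∏_{i=0}^{K} (k + 1 + i)`, and
`∏_{j=0}^{M} (k/n+1+j) = n^{-(M+1)} ∏_{j=1}^{M+1} (k + n j)`,
`∏_{i=0}^{K} (k+1+i) = ∏_{i=1}^{n(M+1)} (k + i)`.
So the quotient `GammaSeq (k/n+1) M / GammaSeq (k+1) K` equals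
`c_M r_M^k ∏_{1 ≤ i ≤ n(M+1), n ∤ i} (k + i)` with `c_M, r_M > 0`
(`r_M = M^(1/n) / K`), and it tends to `Γ(k/n+1)/Γ(k+1) = Γ(k/n+1)/k!` as `M → ∞`
(`Real.GammaSeq_tendsto_Gamma`, `Real.Gamma_nat_eq_factorial`, `K → ∞`). The sequence
`φ k * ∏_{i ∈ F} (k + i)` is in `T` for every finite set `F` of positive integers (induction on
`F` with `T_lin`), then `T_scale` and `T_lim_ev`.
-/

set_option autoImplicit false

namespace Pool.Agent.Lib.MP_8382de_an.ALG

open Polynomial Filter Topology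

private theorem rat_T_prod {φ : ℕ → ℝ} (h : T φ) (F : Finset ℕ) :
    (∀ i ∈ F, 0 < i) → T (fun k => (∏ i ∈ F, ((k : ℝ) + (i : ℝ))) * φ k) := by
  classical
  induction F using Finset.induction_on with
  | empty =>
    intro _
    exact T_congr h fun k => by simp
  | insert a s ha ih =>
    intro hF
    have h1 := ih fun i hi => hF i (Finset.mem_insert_of_mem hi)
    have ha0 : (0 : ℝ) < (a : ℝ) := by exact_mod_cast hF a (Finset.mem_insert_self a s)
    refine T_congr (T_lin h1 (e := 1) (β := (a : ℝ)) zero_le_one ha0) fun k => ?_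
    rw [Finset.prod_insert ha]
    ring

private theorem rat_prod_dvd (k : ℝ) {n : ℕ} (hn : 1 ≤ n) (M : ℕ) :
    ∏ i ∈ (Finset.Icc 1 (n * (M + 1))).filter (fun i => n ∣ i), (k + (i : ℝ)) =
      ∏ j ∈ Finset.range (M + 1), (k + (n : ℝ) * ((j : ℝ) + 1)) := by
  classical
  have h1 : (Finset.Icc 1 (n * (M + 1))).filter (fun i => n ∣ i) =
      (Finset.range (M + 1)).image (fun j => n * (j + 1)) := by
    ext i
    simp only [Finset.mem_filter, Finset.mem_Icc, Finset.mem_image, Finset.mem_range]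
    constructor
    · rintro ⟨⟨h1, h2⟩, ⟨c, rfl⟩⟩
      have hc : c ≤ M + 1 := Nat.le_of_mul_le_mul_left h2 hn
      have hc0 : 0 < c := Nat.pos_of_ne_zero (by rintro rfl; omega)
      exact ⟨c - 1, by omega, by rw [Nat.sub_add_cancel hc0]⟩
    · rintro ⟨j, hj, rfl⟩
      refine ⟨⟨Nat.one_le_iff_ne_zero.2 (Nat.mul_ne_zero (by omega) (by omega)),
        Nat.mul_le_mul_left n (by omega)⟩, Nat.dvd_mul_right _ _⟩
  rw [h1, Finset.prod_image]
  · refine Finset.prod_congr rfl fun j _ => ?_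
    push_cast
    ring
  · intro a _ b _ hab
    have := Nat.eq_of_mul_eq_mul_left (show 0 < n by omega) hab
    omega

private theorem rat_quot (k : ℕ) {n : ℕ} (hn : 1 ≤ n) (M : ℕ) (hM : 1 ≤ M) :
    Real.GammaSeq ((k : ℝ) / n + 1) M / Real.GammaSeq ((k : ℝ) + 1) (n * (M + 1) - 1) =
      ((M : ℝ) * (M.factorial : ℝ) * (n : ℝ) ^ (M + 1) /
        (((n * (M + 1) - 1 : ℕ) : ℝ) * ((n * (M + 1) - 1).factorial : ℝ))) *
      ((M : ℝ) ^ (1 / (n : ℝ)) / ((n * (M + 1) - 1 : ℕ) : ℝ)) ^ k *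
      ∏ i ∈ (Finset.Icc 1 (n * (M + 1))).filter (fun i => ¬ n ∣ i), ((k : ℝ) + (i : ℝ)) := by
  have hn0 : (0 : ℝ) < n := by exact_mod_cast hn
  have hM0 : (0 : ℝ) < M := by exact_mod_cast hM
  have hK1 : 1 ≤ n * (M + 1) - 1 := by
    have : 1 * (1 + 1) ≤ n * (M + 1) := Nat.mul_le_mul hn (by omega)
    omega
  set K := n * (M + 1) - 1 with hK
  have hKn : K + 1 = n * (M + 1) := by omega
  have hK0 : (0 : ℝ) < K := by exact_mod_cast hK1
  unfold Real.GammaSeq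
  have hP2 : ∏ j ∈ Finset.range (K + 1), ((k : ℝ) + 1 + (j : ℝ)) =
      (∏ i ∈ (Finset.Icc 1 (n * (M + 1))).filter (fun i => n ∣ i), ((k : ℝ) + (i : ℝ))) *
      ∏ i ∈ (Finset.Icc 1 (n * (M + 1))).filter (fun i => ¬ n ∣ i), ((k : ℝ) + (i : ℝ)) := by
    rw [Finset.prod_filter_mul_prod_filter_not, hKn, Finset.range_eq_Ico,
      Finset.prod_Ico_eq_prod_range]
    have h1 : Finset.Icc 1 (n * (M + 1)) = Finset.Ico 1 (n * (M + 1) + 1) := by
      ext x; simp only [Finset.mem_Icc, Finset.mem_Ico]; omega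
    rw [h1, Finset.prod_Ico_eq_prod_range]
    simp only [Nat.sub_zero, Nat.add_sub_cancel, zero_add]
    refine Finset.prod_congr rfl fun j _ => ?_
    push_cast
    ring
  have hP1 : ∏ j ∈ Finset.range (M + 1), ((k : ℝ) + (n : ℝ) * ((j : ℝ) + 1)) =
      (n : ℝ) ^ (M + 1) * ∏ j ∈ Finset.range (M + 1), ((k : ℝ) / n + 1 + (j : ℝ)) := by
    have h1 : (n : ℝ) ^ (M + 1) = ∏ _j ∈ Finset.range (M + 1), (n : ℝ) := by
      rw [Finset.prod_const, Finset.card_range]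
    rw [h1, ← Finset.prod_mul_distrib]
    refine Finset.prod_congr rfl fun j _ => ?_
    field_simp
    ring
  rw [hP2, rat_prod_dvd (k : ℝ) hn M, hP1]
  have hA : 0 < ∏ j ∈ Finset.range (M + 1), ((k : ℝ) / n + 1 + (j : ℝ)) :=
    Finset.prod_pos fun j _ => by positivity
  have hB : 0 < ∏ i ∈ (Finset.Icc 1 (n * (M + 1))).filter (fun i => ¬ n ∣ i),
      ((k : ℝ) + (i : ℝ)) := by
    refine Finset.prod_pos fun i hi => ?_
    have := (Finset.mem_Icc.1 (Finset.mem_filter.1 hi).1).1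
    have h1 : (0 : ℝ) < i := by exact_mod_cast this
    positivity
  have e1 : (M : ℝ) ^ ((k : ℝ) / n + 1) = ((M : ℝ) ^ (1 / (n : ℝ))) ^ k * M := by
    rw [Real.rpow_add hM0, Real.rpow_one, ← Real.rpow_natCast, ← Real.rpow_mul hM0.le]
    congr 2
    ring
  have e2 : (K : ℝ) ^ ((k : ℝ) + 1) = (K : ℝ) ^ k * K := by
    rw [Real.rpow_add hK0, Real.rpow_one, Real.rpow_natCast]
  rw [e1, e2, div_pow]
  have hKf : (0 : ℝ) < (K.factorial : ℝ) := by exact_mod_cast Nat.factorial_pos K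
  generalize (∏ j ∈ Finset.range (M + 1), ((k : ℝ) / n + 1 + (j : ℝ))) = PA at *
  generalize (∏ i ∈ (Finset.Icc 1 (n * (M + 1))).filter (fun i => ¬ n ∣ i),
      ((k : ℝ) + (i : ℝ))) = PB at *
  generalize ((M : ℝ) ^ (1 / (n : ℝ))) ^ k = R at *
  have hKk : (0 : ℝ) < (K : ℝ) ^ k := by positivity
  have hnM : (0 : ℝ) < (n : ℝ) ^ (M + 1) := by positivity
  field_simp

theorem T_rat {φ : ℕ → ℝ} (h : T φ) {n : ℕ} (hn : 1 ≤ n) :
    T (fun k => Real.Gamma ((k : ℝ) / n + 1) / (k.factorial : ℝ) * φ k) := by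
  refine T_lim_ev (φ := fun M k => Real.GammaSeq ((k : ℝ) / n + 1) M /
    Real.GammaSeq ((k : ℝ) + 1) (n * (M + 1) - 1) * φ k) ?_ ?_
  · filter_upwards [eventually_ge_atTop 1] with M hM
    have hn0 : (0 : ℝ) < n := by exact_mod_cast hn
    have hM0 : (0 : ℝ) < M := by exact_mod_cast hM
    have hK1 : 1 ≤ n * (M + 1) - 1 := by
      have : 1 * (1 + 1) ≤ n * (M + 1) := Nat.mul_le_mul hn (by omega)
      omega
    have hK0 : (0 : ℝ) < ((n * (M + 1) - 1 : ℕ) : ℝ) := by exact_mod_cast hK1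
    have hKf : (0 : ℝ) < ((n * (M + 1) - 1).factorial : ℝ) := by
      exact_mod_cast Nat.factorial_pos _
    have hMf : (0 : ℝ) < (M.factorial : ℝ) := by exact_mod_cast Nat.factorial_pos _
    have h1 := rat_T_prod h ((Finset.Icc 1 (n * (M + 1))).filter (fun i => ¬ n ∣ i))
      (fun i hi => (Finset.mem_Icc.1 (Finset.mem_filter.1 hi).1).1)
    have hc : 0 < ((M : ℝ) * (M.factorial : ℝ) * (n : ℝ) ^ (M + 1) /
        (((n * (M + 1) - 1 : ℕ) : ℝ) * ((n * (M + 1) - 1).factorial : ℝ))) := by positivity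
    have hr : 0 < ((M : ℝ) ^ (1 / (n : ℝ)) / ((n * (M + 1) - 1 : ℕ) : ℝ)) :=
      div_pos (Real.rpow_pos_of_pos hM0 _) hK0
    refine T_congr (T_scale h1 hc hr) fun k => ?_
    rw [rat_quot k hn M hM]
    ring
  · intro k
    apply Tendsto.mul_const
    have hfac : (k.factorial : ℝ) = Real.Gamma ((k : ℝ) + 1) := by
      rw [Real.Gamma_nat_eq_factorial]
    rw [hfac]
    have hpos : 0 < Real.Gamma ((k : ℝ) + 1) := Real.Gamma_pos_of_pos (by positivity)
    refine Tendsto.div (Real.GammaSeq_tendsto_Gamma _) ?_ hpos.ne'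
    refine (Real.GammaSeq_tendsto_Gamma ((k : ℝ) + 1)).comp ?_
    refine tendsto_atTop_mono (fun M => ?_) tendsto_id
    show M ≤ n * (M + 1) - 1
    have : 1 * (M + 1) ≤ n * (M + 1) := Nat.mul_le_mul_right _ hn
    omega

end Pool.Agent.Lib.MP_8382de_an.ALG
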