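import Pool.Agent.Lib.MP_8382de_an.ALG.AddN
import Pool.Agent.Lib.MP_8382de_an.ALG.Rat
import Pool.Agent.Lib.MP_8382de_an.ALG.Fin

/-!
# ALG.Main: the theorem

`good_of_T`: if `T (k ↦ γ_k)` with `γ_k = Γ(ak+1) Γ(bk+1)/Γ(ck+d+1)/k!` then every zero of `Φ` is
real and negative: `T.zeros` with `φ k = γ_k` (`φ 0 = 1/Γ(d+1) > 0`); the series in the definition of
`Phi` is termwise equal to `∑ φ k x^k` (cast, `mul_div_right_comm`).

`main_I`: wlog `a ≤ b` (`Phi a b = Phi b a`). `c₀ = (c-a-b)/4 ≥ 2`, `β = d+1 ≤ c₀`; `two_num`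
(`a d ≤ 4c₀ = c-a-b`, `b d ≤ a + 4c₀ = c - b`), then `T_gamma` with `e = 1, β = 1`
(`Γ(k+1) = k!`).
`main_II`: `b = 1/n`: `one_num` with `c₀ = (c-a)/2 ≥ 2`, `β = d+1 ≤ c₀`, `a d ≤ 2c₀ = c-a`; then
`T_rat` (`Γ(k/n+1) = Γ(b k+1)`).
`main_III`: `b = 1/n`, `d = 1`, `c = a+2`, `a ≤ 2`: `T_seed` and `T_rat`.
`main_IV`: `d = 1`, `c = a+b+4`: wlog `a ≤ b`; `two_seed` and `T_gamma` with `e = 1, β = 1`.
-/

set_option autoImplicit false

namespace Pool.Agent.Lib.MP_8382de_an.ALG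

/-- the function of the problem -/
noncomputable def Phi (a b c d : ℝ) (x : ℂ) : ℂ :=
  ∑' k : ℕ, ((Real.Gamma (a * k + 1) * Real.Gamma (b * k + 1) / Real.Gamma (c * k + d + 1) : ℝ) : ℂ)
    * x ^ k / (k.factorial : ℂ)

theorem Phi_symm (a b c d : ℝ) (x : ℂ) : Phi a b c d x = Phi b a c d x := by
  unfold Phi
  refine tsum_congr fun k => ?_
  rw [mul_comm (Real.Gamma (a * k + 1))]

theorem good_of_T {a b c d : ℝ} (ha : 0 < a) (hb : 0 < b) (hd : 0 < d)
    (h : T (fun k => Real.Gamma (a * (k : ℝ) + 1) * Real.Gamma (b * (k : ℝ) + 1) /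
      Real.Gamma (c * (k : ℝ) + d + 1) / (k.factorial : ℝ)))
    {x : ℂ} (hx : Phi a b c d x = 0) : x.im = 0 ∧ x.re < 0 := by
  refine T.zeros h ?_ x ?_
  · have h1 : 0 < Real.Gamma (c * ((0 : ℕ) : ℝ) + d + 1) := by
      apply Real.Gamma_pos_of_pos
      push_cast
      linarith
    have h2 : 0 < Real.Gamma (a * ((0 : ℕ) : ℝ) + 1) := by
      apply Real.Gamma_pos_of_pos
      push_cast
      linarith
    have h3 : 0 < Real.Gamma (b * ((0 : ℕ) : ℝ) + 1) := by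
      apply Real.Gamma_pos_of_pos
      push_cast
      linarith
    have h4 : (0 : ℝ) < ((0 : ℕ).factorial : ℝ) := by exact_mod_cast Nat.factorial_pos 0
    exact div_pos (div_pos (mul_pos h2 h3) h1) h4
  · rw [← hx]
    unfold Phi
    refine tsum_congr fun k => ?_
    rw [Complex.ofReal_div (Real.Gamma (a * (k : ℝ) + 1) * Real.Gamma (b * (k : ℝ) + 1) /
      Real.Gamma (c * (k : ℝ) + d + 1)) (k.factorial : ℝ), Complex.ofReal_natCast]
    ring

private theorem Main_I {a b c d : ℝ} (ha : 0 < a) (hb : 0 < b) (hd : 0 < d)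
    (h8 : 8 ≤ c - a - b) (hd1 : d ≤ (c - a - b) / 4 - 1) (hmin : d * a ≤ c - a - b)
    (hmax : d * b ≤ c - b) {x : ℂ} (hx : Phi a b c d x = 0) : x.im = 0 ∧ x.re < 0 := by
  refine good_of_T ha hb hd ?_ hx
  have h1 := two_num (a := a) (b := b) (c := (c - a - b) / 4) (β := d + 1) ha hb (by linarith)
    (by linarith) (by linarith) (by linarith) (by linarith)
  have h2 := T_gamma h1 (e := 1) (β := 1) zero_le_one one_pos
  refine T_congr h2 fun k => ?_
  rw [one_mul, Real.Gamma_nat_eq_factorial, show (a + b + 4 * ((c - a - b) / 4)) * (k : ℝ) + (d + 1) =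
    c * k + d + 1 by ring]

theorem main_I {a b c d : ℝ} (ha : 0 < a) (hb : 0 < b) (hd : 0 < d) (h8 : 8 ≤ c - a - b)
    (hd1 : d ≤ (c - a - b) / 4 - 1) (hmin : d * min a b ≤ c - a - b)
    (hmax : d * max a b ≤ c - max a b) {x : ℂ} (hx : Phi a b c d x = 0) :
    x.im = 0 ∧ x.re < 0 := by
  rcases le_total a b with hab | hab
  · rw [min_eq_left hab] at hmin
    rw [max_eq_right hab] at hmax
    exact Main_I ha hb hd h8 hd1 hmin hmax hx
  · rw [min_eq_right hab] at hmin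
    rw [max_eq_left hab] at hmax
    rw [Phi_symm] at hx
    exact Main_I hb ha hd (by linarith) (by linarith) (by linarith) hmax hx

theorem main_II {a c d : ℝ} {n : ℕ} (hn : 1 ≤ n) (ha : 0 < a) (hd : 0 < d) (h4 : 4 ≤ c - a)
    (hd1 : d ≤ (c - a) / 2 - 1) (had : d * a ≤ c - a) {x : ℂ}
    (hx : Phi a (1 / n) c d x = 0) : x.im = 0 ∧ x.re < 0 := by
  have hn0 : (0 : ℝ) < n := by exact_mod_cast hn
  refine good_of_T ha (by positivity) hd ?_ hx
  have h1 := one_num (a := a) (c := (c - a) / 2) (β := d + 1) ha (by linarith) (by linarith)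
    (by linarith) (by linarith)
  refine T_congr (T_rat h1 hn) fun k => ?_
  rw [show (a + 2 * ((c - a) / 2)) * (k : ℝ) + (d + 1) = c * k + d + 1 by ring,
    show 1 / (n : ℝ) * k + 1 = k / n + 1 by ring]
  ring

theorem main_III {a : ℝ} {n : ℕ} (hn : 1 ≤ n) (ha : 0 < a) (ha2 : a ≤ 2) {x : ℂ}
    (hx : Phi a (1 / n) (a + 2) 1 x = 0) : x.im = 0 ∧ x.re < 0 := by
  have hn0 : (0 : ℝ) < n := by exact_mod_cast hn
  refine good_of_T ha (by positivity) one_pos ?_ hx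
  refine T_congr (T_rat (T_seed ha ha2) hn) fun k => ?_
  rw [show (a + 2) * (k : ℝ) + 1 + 1 = (a + 2) * (k : ℝ) + 2 by ring,
    show 1 / (n : ℝ) * k + 1 = k / n + 1 by ring]
  ring

private theorem Main_IV {a b : ℝ} (ha : 0 < a) (hb : 0 < b) (hmin : a ≤ 4)
    (hmax : b ≤ a + 4) {x : ℂ} (hx : Phi a b (a + b + 4) 1 x = 0) :
    x.im = 0 ∧ x.re < 0 := by
  refine good_of_T ha hb one_pos ?_ hx
  have h2 := T_gamma (two_seed ha hb hmin hmax) (e := 1) (β := 1) zero_le_one one_pos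
  refine T_congr h2 fun k => ?_
  rw [one_mul, Real.Gamma_nat_eq_factorial, show (a + b + 4) * (k : ℝ) + 1 + 1 =
    (a + b + 4) * k + 2 by ring]

theorem main_IV {a b : ℝ} (ha : 0 < a) (hb : 0 < b) (hmin : min a b ≤ 4)
    (hmax : max a b ≤ min a b + 4) {x : ℂ} (hx : Phi a b (a + b + 4) 1 x = 0) :
    x.im = 0 ∧ x.re < 0 := by
  rcases le_total a b with hab | hab
  · rw [min_eq_left hab] at hmin hmax
    rw [max_eq_right hab] at hmax
    exact Main_IV ha hb hmin hmax hx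
  · rw [min_eq_right hab] at hmin hmax
    rw [max_eq_left hab] at hmax
    rw [Phi_symm, add_comm a b] at hx
    exact Main_IV hb ha hmin hmax hx

end Pool.Agent.Lib.MP_8382de_an.ALG
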