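import Pool.Agent.Lib.MP_8382de_an.ALG.Fac

/-!
# ALG.NegB: basic properties of `Neg` polynomials

Write `p = C c * ∏_{x ∈ S} (1 + x X)` with `c = p.coeff 0 > 0`, `x > 0` (`Neg.fac`,
`aeval_fac`). Everything is an induction over the multiset `S`.

* `Neg.ne`: for `0 ≤ Re t`, `‖1 + x t‖ ≥ Re (1 + x t) ≥ 1`, so no factor vanishes. (Or directly
  from the definition of `Neg`: a zero has negative real part.)
* `Neg.ray`: for `0 ≤ Re t` and `0 ≤ s ≤ 1`, `‖1 + x s t‖ ≤ ‖1 + x t‖`: compare squares,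
  `(1 + x s Re t)^2 + (x s Im t)^2 ≤ (1 + x Re t)^2 + (x Im t)^2`. Product of such factors:
  `Multiset.induction_on`, `norm_mul`, `mul_le_mul`.
* `Neg.coeff_nonneg` and `Neg.coeff_le`: claim by induction over `S`: for `q = ∏ (1 + x X)`,
  `0 ≤ q.coeff k ≤ (∑ S)^k / k!` and `q.coeff 1 = ∑ S`, `q.coeff 0 = 1`. Step:
  `((1 + C x * X) * q).coeff (k+1) = q.coeff (k+1) + x * q.coeff k`
  `≤ σ^(k+1)/(k+1)! + x σ^k / k! ≤ (σ + x)^(k+1) / (k+1)!`, because
  `(σ + x)^(k+1) ≥ σ^(k+1) + (k+1) x σ^k` for `σ, x ≥ 0` (induction on `k`). Then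
  `p.coeff k = c * q.coeff k`, `p.coeff 1 / p.coeff 0 = ∑ S`.
* `Neg.lower`: fixed `z` which is not a negative real. There is `C ≥ 0` (depending on `z` only)
  with `‖1 + x z‖ ≥ exp (-(C x))` for all `x > 0`:
  - if `0 ≤ Re z`: `‖1 + x z‖ ≥ 1`, `C = 0`;
  - if `Re z < 0`, then `Im z ≠ 0`. Put `r = ‖z‖ > 0`, `ε = |Im z| / (2 r) ∈ (0, 1/2]`,
    `C = max (2 r) (2 r log (1/ε))`. If `x r ≤ 1/2`: `‖1 + x z‖ ≥ 1 - x r ≥ exp (-(2 x r))`
    (for `0 ≤ y ≤ 1/2`: `1 - y ≥ exp (-2y)`; proof: `exp (2y) (1-y) ≤ 1`? equivalent to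
    `1/(1-y) ≤ exp (2y)`, and `1/(1-y) ≤ 1 + 2y ≤ exp (2y)` for `0 ≤ y ≤ 1/2`, since
    `(1-y)(1+2y) = 1 + y - 2y² ≥ 1`). If `x r > 1/2`:
    `‖1 + x z‖ ≥ |x Im z| ≥ |Im z|/(2r) = ε = exp (-log (1/ε)) ≥ exp (-(C x))` since
    `C x ≥ 2 r x log (1/ε) ≥ log (1/ε)`.
  Multiply over `S`: `‖p(z)‖ ≥ c exp (-(C ∑ S))` and `∑ S = p.coeff 1 / p.coeff 0`.
-/

set_option autoImplicit false

namespace Pool.Agent.Lib.MP_8382de_an.ALG

open Polynomial

theorem Neg.ne {p : Polynomial ℝ} (hp : Neg p) {t : ℂ} (ht : 0 ≤ t.re) : aeval t p ≠ 0 := by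
  intro h
  have := (hp.2 t h).2
  linarith

theorem NegB_coe (S : Multiset ℝ) (f : ℂ → ℂ) :
    (S.map (fun x => f (x : ℂ))).prod = (S.map (fun x : ℝ => f (x : ℂ))).prod := by
  show (Multiset.map f (Multiset.bind S (fun a => {(a : ℂ)}))).prod = _
  rw [Multiset.bind_singleton, Multiset.map_map]
  rfl

theorem NegB_aeval (c : ℝ) (S : Multiset ℝ) (z : ℂ) :
    aeval z (C c * (S.map (fun x => 1 + C x * X)).prod) =
      (c : ℂ) * (S.map (fun x : ℝ => 1 + (x : ℂ) * z)).prod := by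
  rw [aeval_fac]
  congr 1
  exact NegB_coe S (fun x => 1 + x * z)

theorem NegB_ray1 {t : ℂ} (ht : 0 ≤ t.re) {s x : ℝ} (h0 : 0 ≤ s) (h1 : s ≤ 1) (hx : 0 < x) :
    ‖1 + (x : ℂ) * ((s : ℂ) * t)‖ ≤ ‖1 + (x : ℂ) * t‖ := by
  rw [← abs_of_nonneg (norm_nonneg (1 + (x : ℂ) * ((s : ℂ) * t))),
    ← abs_of_nonneg (norm_nonneg (1 + (x : ℂ) * t)), ← sq_le_sq, ← Complex.normSq_eq_norm_sq,
    ← Complex.normSq_eq_norm_sq, Complex.normSq_apply, Complex.normSq_apply]
  simp only [Complex.add_re, Complex.one_re, Complex.mul_re, Complex.ofReal_re, Complex.ofReal_im,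
    zero_mul, sub_zero, Complex.add_im, Complex.one_im, Complex.mul_im, zero_add, add_zero]
  have hs2 : s * s ≤ 1 := by nlinarith
  have h2 : x * (s * t.re) ≤ x * t.re := by
    apply mul_le_mul_of_nonneg_left _ hx.le
    nlinarith
  have h3 : 0 ≤ x * (s * t.re) := by positivity
  have h4 : (x * (s * t.im)) * (x * (s * t.im)) ≤ (x * t.im) * (x * t.im) := by
    have : (x * (s * t.im)) * (x * (s * t.im)) = (s * s) * ((x * t.im) * (x * t.im)) := by ring
    rw [this]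
    have h5 : 0 ≤ (x * t.im) * (x * t.im) := mul_self_nonneg _
    nlinarith
  nlinarith

theorem NegB_ray2 {t : ℂ} (ht : 0 ≤ t.re) {s : ℝ} (h0 : 0 ≤ s) (h1 : s ≤ 1) (S : Multiset ℝ)
    (hS : ∀ x ∈ S, 0 < x) :
    ‖(S.map (fun x : ℝ => 1 + (x : ℂ) * ((s : ℂ) * t))).prod‖ ≤
      ‖(S.map (fun x : ℝ => 1 + (x : ℂ) * t)).prod‖ := by
  induction S using Multiset.induction_on with
  | empty => simp
  | cons x S ih =>
    rw [Multiset.map_cons, Multiset.prod_cons, Multiset.map_cons, Multiset.prod_cons, norm_mul, norm_mul]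
    exact mul_le_mul (NegB_ray1 ht h0 h1 (hS x (Multiset.mem_cons_self _ _)))
      (ih (fun y hy => hS y (Multiset.mem_cons_of_mem hy))) (norm_nonneg _) (norm_nonneg _)

theorem Neg.ray {p : Polynomial ℝ} (hp : Neg p) {t : ℂ} (ht : 0 ≤ t.re) {s : ℝ} (h0 : 0 ≤ s)
    (h1 : s ≤ 1) : ‖aeval ((s : ℂ) * t) p‖ ≤ ‖aeval t p‖ := by
  obtain ⟨S, hS, hpS⟩ := hp.fac
  rw [hpS, NegB_aeval, NegB_aeval, norm_mul, norm_mul]
  exact mul_le_mul_of_nonneg_left (NegB_ray2 ht h0 h1 S hS) (norm_nonneg _)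

theorem NegB_pow (k : ℕ) {a x : ℝ} (ha : 0 ≤ a) (hx : 0 ≤ x) :
    a ^ (k + 1) + (k + 1) * x * a ^ k ≤ (a + x) ^ (k + 1) := by
  induction k with
  | zero => simp
  | succ k ih =>
    have h1 : (a + x) ^ (k + 1 + 1) = (a + x) ^ (k + 1) * (a + x) := pow_succ _ _
    rw [h1]
    have h2 := mul_le_mul_of_nonneg_right ih (add_nonneg ha hx)
    refine le_trans ?_ h2
    have h3 : 0 ≤ ((k : ℝ) + 1) * x * a ^ k * x := by positivity
    have h4 : a ^ (k + 1 + 1) = a ^ k * a * a := by ring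
    have h5 : a ^ (k + 1) = a ^ k * a := by ring
    push_cast
    rw [h4, h5]
    nlinarith

theorem NegB_coeff (S : Multiset ℝ) (hS : ∀ x ∈ S, 0 < x) :
    0 ≤ S.sum ∧ (S.map (fun x => (1 + C x * X : Polynomial ℝ))).prod.coeff 0 = 1 ∧
      (S.map (fun x => (1 + C x * X : Polynomial ℝ))).prod.coeff 1 = S.sum ∧
      ∀ k, 0 ≤ (S.map (fun x => (1 + C x * X : Polynomial ℝ))).prod.coeff k ∧
        (S.map (fun x => (1 + C x * X : Polynomial ℝ))).prod.coeff k ≤ S.sum ^ k / (k.factorial : ℝ) := by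
  induction S using Multiset.induction_on with
  | empty =>
    refine ⟨by simp, by simp, ?_, ?_⟩
    · simp [coeff_one]
    · intro k
      simp only [Multiset.map_zero, Multiset.prod_zero, Multiset.sum_zero]
      rw [coeff_one]
      cases k with
      | zero => simp
      | succ k => simp
  | cons x S ih =>
    obtain ⟨i1, i2, i3, i4⟩ := ih (fun y hy => hS y (Multiset.mem_cons_of_mem hy))
    have hx : 0 < x := hS x (Multiset.mem_cons_self _ _)
    set q := (S.map (fun x => (1 + C x * X : Polynomial ℝ))).prod with hq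
    have hco : ∀ k, ((1 + C x * X : Polynomial ℝ) * q).coeff (k + 1) = q.coeff (k + 1) + x * q.coeff k := by
      intro k
      rw [add_mul, one_mul, coeff_add, mul_assoc, coeff_C_mul, coeff_X_mul]
    have hco0 : ((1 + C x * X : Polynomial ℝ) * q).coeff 0 = q.coeff 0 := by
      rw [mul_coeff_zero]; simp
    rw [Multiset.map_cons, Multiset.prod_cons, Multiset.sum_cons, ← hq]
    refine ⟨by linarith, ?_, ?_, ?_⟩
    · rw [hco0, i2]
    · rw [hco 0, i3, i2]; ring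
    · intro k
      cases k with
      | zero =>
        rw [hco0, i2]; simp
      | succ k =>
        rw [hco k]
        have a1 := i4 (k + 1)
        have a2 := i4 k
        refine ⟨by nlinarith [a1.1, a2.1], ?_⟩
        have hf : (0 : ℝ) < (k.factorial : ℝ) := by exact_mod_cast Nat.factorial_pos k
        have hf1 : (((k + 1).factorial : ℕ) : ℝ) = ((k : ℝ) + 1) * (k.factorial : ℝ) := by
          rw [Nat.factorial_succ]; push_cast; ring
        have hf2 : (0 : ℝ) < (((k + 1).factorial : ℕ) : ℝ) := by exact_mod_cast Nat.factorial_pos (k + 1)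
        have h6 : x * q.coeff k ≤ x * (S.sum ^ k / (k.factorial : ℝ)) :=
          mul_le_mul_of_nonneg_left a2.2 hx.le
        have h7 := NegB_pow k i1 hx.le
        have h8 : S.sum ^ (k + 1) / (((k + 1).factorial : ℕ) : ℝ) + x * (S.sum ^ k / (k.factorial : ℝ)) =
            (S.sum ^ (k + 1) + ((k : ℝ) + 1) * x * S.sum ^ k) / (((k + 1).factorial : ℕ) : ℝ) := by
          rw [hf1]
          field_simp
        calc q.coeff (k + 1) + x * q.coeff k ≤ S.sum ^ (k + 1) / (((k + 1).factorial : ℕ) : ℝ) +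
              x * (S.sum ^ k / (k.factorial : ℝ)) := add_le_add a1.2 h6
          _ = (S.sum ^ (k + 1) + ((k : ℝ) + 1) * x * S.sum ^ k) / (((k + 1).factorial : ℕ) : ℝ) := h8
          _ ≤ (S.sum + x) ^ (k + 1) / (((k + 1).factorial : ℕ) : ℝ) :=
              div_le_div_of_nonneg_right h7 hf2.le
          _ = (x + S.sum) ^ (k + 1) / (((k + 1).factorial : ℕ) : ℝ) := by rw [add_comm x]

theorem NegB_main {p : Polynomial ℝ} (hp : Neg p) : ∃ S : Multiset ℝ, (∀ x ∈ S, 0 < x) ∧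
    S.sum = p.coeff 1 / p.coeff 0 ∧ 0 ≤ S.sum ∧
    p = C (p.coeff 0) * (S.map (fun x => 1 + C x * X)).prod := by
  obtain ⟨S, hS, hpS⟩ := hp.fac
  obtain ⟨i1, i2, i3, i4⟩ := NegB_coeff S hS
  refine ⟨S, hS, ?_, i1, hpS⟩
  have h1 : p.coeff 1 = p.coeff 0 * S.sum := by
    conv_lhs => rw [hpS]
    rw [coeff_C_mul, i3]
  rw [h1]
  field_simp [hp.1.ne']

theorem Neg.coeff_nonneg {p : Polynomial ℝ} (hp : Neg p) (k : ℕ) : 0 ≤ p.coeff k := by
  obtain ⟨S, hS, hpS⟩ := hp.fac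
  obtain ⟨i1, i2, i3, i4⟩ := NegB_coeff S hS
  have h1 : p.coeff k = p.coeff 0 * (S.map (fun x => (1 + C x * X : Polynomial ℝ))).prod.coeff k := by
    conv_lhs => rw [hpS]
    rw [coeff_C_mul]
  rw [h1]
  exact mul_nonneg hp.1.le (i4 k).1

theorem Neg.coeff_le {p : Polynomial ℝ} (hp : Neg p) (k : ℕ) :
    p.coeff k ≤ p.coeff 0 * (p.coeff 1 / p.coeff 0) ^ k / (k.factorial : ℝ) := by
  obtain ⟨S, hS, hsum, _, hpS⟩ := NegB_main hp
  obtain ⟨i1, i2, i3, i4⟩ := NegB_coeff S hS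
  have h1 : p.coeff k = p.coeff 0 * (S.map (fun x => (1 + C x * X : Polynomial ℝ))).prod.coeff k := by
    conv_lhs => rw [hpS]
    rw [coeff_C_mul]
  rw [h1, ← hsum, mul_div_assoc]
  exact mul_le_mul_of_nonneg_left (i4 k).2 hp.1.le

theorem NegB_low1 (z : ℂ) (hz : ¬ (z.im = 0 ∧ z.re < 0)) :
    ∃ C : ℝ, 0 ≤ C ∧ ∀ x : ℝ, 0 < x → Real.exp (-(C * x)) ≤ ‖1 + (x : ℂ) * z‖ := by
  by_cases hre : 0 ≤ z.re
  · refine ⟨0, le_rfl, ?_⟩
    intro x hx
    rw [zero_mul, neg_zero, Real.exp_zero]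
    have h1 : (1 + (x : ℂ) * z).re = 1 + x * z.re := by simp
    have h2 := Complex.re_le_norm (1 + (x : ℂ) * z)
    rw [h1] at h2
    nlinarith [mul_nonneg hx.le hre]
  · push Not at hre
    have him : z.im ≠ 0 := fun h => hz ⟨h, hre⟩
    set r := ‖z‖ with hr
    have hr0 : 0 < r := by
      rw [hr, norm_pos_iff]
      intro h0
      rw [h0] at him
      simp at him
    have himr : |z.im| ≤ r := Complex.abs_im_le_norm z
    have him0 : 0 < |z.im| := abs_pos.2 him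
    set ε := |z.im| / (2 * r) with hε
    have hε0 : 0 < ε := by positivity
    have hε1 : ε ≤ 1 := by
      rw [hε, div_le_one (by positivity)]
      linarith
    have hlog : 0 ≤ Real.log (1 / ε) := Real.log_nonneg (by rw [le_div_iff₀ hε0]; linarith)
    refine ⟨2 * r + 2 * r * Real.log (1 / ε), by positivity, ?_⟩
    intro x hx
    by_cases hxr : x * r ≤ 1 / 2
    · have h1 : 1 - x * r ≤ ‖1 + (x : ℂ) * z‖ := by
        have h2 : ‖(1 : ℂ)‖ ≤ ‖1 + (x : ℂ) * z‖ + ‖(x : ℂ) * z‖ := by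
          calc ‖(1 : ℂ)‖ = ‖(1 + (x : ℂ) * z) - (x : ℂ) * z‖ := by ring_nf
            _ ≤ _ := norm_sub_le _ _
        rw [norm_one, norm_mul, Complex.norm_real, Real.norm_of_nonneg hx.le, ← hr] at h2
        linarith
      refine le_trans ?_ h1
      have hy0 : 0 ≤ x * r := by positivity
      have h3 : 1 + 2 * (x * r) ≤ Real.exp (2 * (x * r)) := by
        have := Real.add_one_le_exp (2 * (x * r))
        linarith
      have h4 : Real.exp (-((2 * r + 2 * r * Real.log (1 / ε)) * x)) ≤ Real.exp (-(2 * (x * r))) := by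
        apply Real.exp_le_exp.2
        have : 0 ≤ 2 * r * Real.log (1 / ε) * x := by positivity
        nlinarith
      refine h4.trans ?_
      rw [Real.exp_neg, inv_le_iff_one_le_mul₀ (Real.exp_pos _)]
      have h5 : (1 - x * r) * (1 + 2 * (x * r)) ≤ (1 - x * r) * Real.exp (2 * (x * r)) :=
        mul_le_mul_of_nonneg_left h3 (by linarith)
      nlinarith
    · push Not at hxr
      have h1 : x * |z.im| ≤ ‖1 + (x : ℂ) * z‖ := by
        have h2 := Complex.abs_im_le_norm (1 + (x : ℂ) * z)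
        have h3 : (1 + (x : ℂ) * z).im = x * z.im := by simp
        rw [h3, abs_mul, abs_of_pos hx] at h2
        exact h2
      have h4 : ε ≤ x * |z.im| := by
        rw [hε, div_le_iff₀ (by positivity)]
        nlinarith
      have h5 : Real.exp (-((2 * r + 2 * r * Real.log (1 / ε)) * x)) ≤ ε := by
        have h6 : ε = Real.exp (-Real.log (1 / ε)) := by
          rw [one_div, Real.log_inv, neg_neg, Real.exp_log hε0]
        conv_rhs => rw [h6]
        apply Real.exp_le_exp.2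
        have h7 : Real.log (1 / ε) ≤ 2 * r * Real.log (1 / ε) * x := by
          have : 1 ≤ 2 * (x * r) := by linarith
          nlinarith
        have h8 : 0 ≤ 2 * r * x := by positivity
        nlinarith
      exact h5.trans (h4.trans h1)

theorem Neg.lower (z : ℂ) (hz : ¬ (z.im = 0 ∧ z.re < 0)) :
    ∃ C : ℝ, 0 ≤ C ∧ ∀ p : Polynomial ℝ, Neg p →
      p.coeff 0 * Real.exp (-(C * (p.coeff 1 / p.coeff 0))) ≤ ‖aeval z p‖ := by
  obtain ⟨B, hB, h⟩ := NegB_low1 z hz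
  refine ⟨B, hB, ?_⟩
  intro p hp
  obtain ⟨S, hS, hsum, _, hpS⟩ := NegB_main hp
  have key : ∀ S : Multiset ℝ, (∀ x ∈ S, 0 < x) →
      Real.exp (-(B * S.sum)) ≤ ‖(S.map (fun x : ℝ => 1 + (x : ℂ) * z)).prod‖ := by
    intro S
    induction S using Multiset.induction_on with
    | empty => intro _; simp
    | cons x S ih =>
      intro hS
      rw [Multiset.map_cons, Multiset.prod_cons, norm_mul, Multiset.sum_cons]
      have h1 : Real.exp (-(B * (x + S.sum))) = Real.exp (-(B * x)) * Real.exp (-(B * S.sum)) := by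
        rw [← Real.exp_add]; ring_nf
      rw [h1]
      exact mul_le_mul (h x (hS x (Multiset.mem_cons_self _ _)))
        (ih (fun y hy => hS y (Multiset.mem_cons_of_mem hy))) (Real.exp_pos _).le (norm_nonneg _)
  have h2 : aeval z p = (p.coeff 0 : ℂ) * (S.map (fun x : ℝ => 1 + (x : ℂ) * z)).prod := by
    conv_lhs => rw [hpS]
    rw [NegB_aeval]
  rw [h2, norm_mul, Complex.norm_real, Real.norm_of_nonneg hp.1.le, ← hsum]
  exact mul_le_mul_of_nonneg_left (key S hS) hp.1.le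

end Pool.Agent.Lib.MP_8382de_an.ALG
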